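import Mathlib
import Pool.Agent.TH891.SP.S1

set_option autoImplicit false

/-! A Hölder inequality for sums over the boxes of an array, helper891. -/

namespace Pool.Agent.TH891.AL

open Finset Pool.Agent.TH891.SP

/-- the multilinear form -/
noncomputable def Frm {ι X Y : Type*} [Fintype ι] (XS : Finset X) (ev : X → ι → Y) (F : ι → Y → ℝ) : ℝ :=
  ∑ x ∈ XS, ∏ i, F i (ev x i)

lemma Frm_nonneg {ι X Y : Type*} [Fintype ι] (XS : Finset X) (ev : X → ι → Y) (F : ι → Y → ℝ)
    (hF : ∀ i y, 0 ≤ F i y) : 0 ≤ Frm XS ev F :=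
  sum_nonneg fun _ _ => prod_nonneg fun _ _ => hF _ _

/-- the family satisfies a Hölder inequality -/
def HolG {ι X Y : Type*} [Fintype ι] (XS : Finset X) (ev : X → ι → Y) : Prop :=
  ∀ F : ι → Y → ℝ, (∀ i y, 0 ≤ F i y) →
    Frm XS ev F ^ Fintype.card ι ≤ ∏ i, Frm XS ev (fun _ => F i)

lemma HolG_unique {ι X Y : Type*} [Fintype ι] [Unique ι] (XS : Finset X) (ev : X → ι → Y) : HolG XS ev := by
  intro F _
  rw [Fintype.card_unique, pow_one, Fintype.prod_unique]
  apply le_of_eq
  unfold Frm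
  apply sum_congr rfl
  intro x _
  rw [Fintype.prod_unique, Fintype.prod_unique]

/-- extension by one further direction -/
theorem HolG_ext {ι X Y α : Type*} [Fintype ι] (XS : Finset X) (ev : X → ι → Y)
    (h : HolG XS ev) (m : ℕ) (A : Finset α) :
    HolG (Fintype.piFinset (fun _ : Fin m => A) ×ˢ XS)
      (fun (bx : (Fin m → α) × X) (ji : Fin m × ι) => (bx.1 ji.1, ev bx.2 ji.2)) := by
  classical
  intro F hF
  set P := Fintype.piFinset (fun _ : Fin m => A) with hP
  set φ : Fin m → X → α → ℝ := fun j x a => ∏ i, F (j, i) (a, ev x i) with hφ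
  have hφ0 : ∀ j x a, 0 ≤ φ j x a := fun j x a => prod_nonneg fun i _ => hF _ _
  set G : Fin m → X → ℝ := fun j x => ∑ a ∈ A, φ j x a with hG
  have hG0 : ∀ j x, 0 ≤ G j x := fun j x => sum_nonneg fun a _ => hφ0 j x a
  have e1 : Frm (P ×ˢ XS) (fun (bx : (Fin m → α) × X) (ji : Fin m × ι) => (bx.1 ji.1, ev bx.2 ji.2)) F =
      ∑ x ∈ XS, ∏ j, G j x := by
    unfold Frm
    rw [sum_product_right]
    apply sum_congr rfl
    intro x _
    rw [hG]
    beta_reduce
    rw [prod_univ_sum]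
    apply sum_congr rfl
    intro b _
    rw [Fintype.prod_prod_type]
  set hb : Fin m → (Fin m → α) → ι → Y → ℝ := fun j b i y => ∏ j', F (j, i) (b j', y) with hhb
  have hhb0 : ∀ j b i y, 0 ≤ hb j b i y := fun j b i y => prod_nonneg fun _ _ => hF _ _
  have e2 : ∀ j, ∑ x ∈ XS, G j x ^ m = ∑ b ∈ P, Frm XS ev (hb j b) := by
    intro j
    have : ∀ x, G j x ^ m = ∑ b ∈ P, ∏ j', φ j x (b j') := by
      intro x
      have := prod_univ_sum (fun _ : Fin m => A) (fun _ a => φ j x a)
      rw [prod_const, card_univ, Fintype.card_fin] at this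
      exact this
    simp_rw [this]
    rw [sum_comm]
    apply sum_congr rfl
    intro b _
    unfold Frm
    apply sum_congr rfl
    intro x _
    rw [hφ, hhb]
    beta_reduce
    rw [prod_comm]
  have e3 : ∀ j i, ∑ b ∈ P, Frm XS ev (fun _ => hb j b i) =
      Frm (P ×ˢ XS) (fun (bx : (Fin m → α) × X) (ji : Fin m × ι) => (bx.1 ji.1, ev bx.2 ji.2))
        (fun _ => F (j, i)) := by
    intro j i
    unfold Frm
    rw [sum_product]
    apply sum_congr rfl
    intro b _
    apply sum_congr rfl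
    intro x _
    rw [Fintype.prod_prod_type, prod_comm]
  have k1 : (∑ x ∈ XS, ∏ j, G j x) ^ m ≤ ∏ j, ∑ x ∈ XS, G j x ^ m := by
    have := holder_pow XS (univ : Finset (Fin m)) G (fun j _ x _ => hG0 j x)
    rw [card_univ, Fintype.card_fin] at this
    exact this
  have k2 : ∀ j, (∑ x ∈ XS, G j x ^ m) ^ Fintype.card ι ≤
      ∏ i, Frm (P ×ˢ XS) (fun (bx : (Fin m → α) × X) (ji : Fin m × ι) => (bx.1 ji.1, ev bx.2 ji.2))
        (fun _ => F (j, i)) := by
    intro j
    rw [e2 j]
    have := sum_le_of_pow P (univ : Finset ι) (fun b => Frm XS ev (hb j b))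
      (fun i b => Frm XS ev (fun _ => hb j b i)) (fun b _ => Frm_nonneg _ _ _ (hhb0 j b))
      (fun i _ b _ => Frm_nonneg _ _ _ (fun _ u => hhb0 j b i u)) (fun b _ => by
        rw [card_univ]
        exact h (hb j b) (hhb0 j b))
    rw [card_univ] at this
    refine this.trans (le_of_eq ?_)
    apply prod_congr rfl
    intro i _
    exact e3 j i
  rw [e1, Fintype.card_prod, Fintype.card_fin, pow_mul]
  calc ((∑ x ∈ XS, ∏ j, G j x) ^ m) ^ Fintype.card ι
      ≤ (∏ j, ∑ x ∈ XS, G j x ^ m) ^ Fintype.card ι :=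
        pow_le_pow_left₀ (pow_nonneg (sum_nonneg fun x _ => prod_nonneg fun j _ => hG0 j x) _) k1 _
    _ = ∏ j, (∑ x ∈ XS, G j x ^ m) ^ Fintype.card ι := (prod_pow _ _ _).symm
    _ ≤ ∏ j, ∏ i, Frm (P ×ˢ XS) (fun (bx : (Fin m → α) × X) (ji : Fin m × ι) => (bx.1 ji.1, ev bx.2 ji.2))
        (fun _ => F (j, i)) := by
        apply prod_le_prod
        · intro j _
          exact pow_nonneg (sum_nonneg fun x _ => pow_nonneg (hG0 j x) _) _
        · intro j _
          exact k2 j
    _ = _ := by rw [Fintype.prod_prod_type]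

/-- change of the index sets -/
lemma Frm_congr {ι ι' X X' Y Y' : Type*} [Fintype ι] [Fintype ι'] (XS : Finset X) (ev : X → ι → Y)
    (XS' : Finset X') (ev' : X' → ι' → Y') (e : ι' ≃ ι) (g : X' ≃ X) (u : Y' ≃ Y)
    (hg : ∀ x', x' ∈ XS' ↔ g x' ∈ XS)
    (hev : ∀ x' i', u (ev' x' i') = ev (g x') (e i')) (F : ι' → Y' → ℝ) :
    Frm XS' ev' F = Frm XS ev (fun i y => F (e.symm i) (u.symm y)) := by
  unfold Frm
  apply sum_equiv g hg
  intro x' _
  rw [← Equiv.prod_comp e]
  apply prod_congr rfl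
  intro i' _
  beta_reduce
  rw [← hev, Equiv.symm_apply_apply, Equiv.symm_apply_apply]

lemma HolG_congr {ι ι' X X' Y Y' : Type*} [Fintype ι] [Fintype ι'] (XS : Finset X) (ev : X → ι → Y)
    (XS' : Finset X') (ev' : X' → ι' → Y') (e : ι' ≃ ι) (g : X' ≃ X) (u : Y' ≃ Y)
    (hg : ∀ x', x' ∈ XS' ↔ g x' ∈ XS)
    (hev : ∀ x' i', u (ev' x' i') = ev (g x') (e i')) (h : HolG XS ev) : HolG XS' ev' := by
  intro F hF
  rw [Frm_congr XS ev XS' ev' e g u hg hev, Fintype.card_congr e]
  refine (h _ (fun i y => hF _ _)).trans (le_of_eq ?_)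
  rw [← Equiv.prod_comp e]
  apply prod_congr rfl
  intro i' _
  rw [Frm_congr XS ev XS' ev' e g u hg hev, Equiv.symm_apply_apply]

section grid

variable {J : Type} [Fintype J] [DecidableEq J] {α : J → Type}

/-- the entries of a box -/
def ent (m : J → ℕ) (x : ∀ j, Fin (m j) → α j) (i : ∀ j, Fin (m j)) : ∀ j, α j := fun j => x j (i j)

/-- the boxes with sides in the sets `A j` -/
def BX (m : J → ℕ) (A : ∀ j, Finset (α j)) : Finset (∀ j, Fin (m j) → α j) :=
  Fintype.piFinset fun j => Fintype.piFinset fun _ : Fin (m j) => A j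

lemma mem_BX {m : J → ℕ} {A : ∀ j, Finset (α j)} {x : ∀ j, Fin (m j) → α j} :
    x ∈ BX m A ↔ ∀ j i, x j i ∈ A j := by
  unfold BX
  simp only [Fintype.mem_piFinset]

lemma card_BX (m : J → ℕ) (A : ∀ j, Finset (α j)) : (BX m A).card = ∏ j, (A j).card ^ m j := by
  unfold BX
  simp [Fintype.card_piFinset]

end grid

theorem HolG_grid_aux (n : ℕ) : ∀ (J : Type) [Fintype J] [DecidableEq J] (α : J → Type)
    (m : J → ℕ) (A : ∀ j, Finset (α j)),
    Fintype.card J = n → HolG (BX m A) (ent m) := by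
  induction n with
  | zero =>
    intro J _ _ α m A hJ
    have : IsEmpty J := Fintype.card_eq_zero_iff.1 hJ
    exact HolG_unique _ _
  | succ n ih =>
    intro J _ _ α m A hJ
    obtain ⟨j₀⟩ : Nonempty J := Fintype.card_pos_iff.1 (by omega)
    have h1 := ih {j // j ≠ j₀} (fun j => α j) (fun j => m j) (fun j => A j) (by
      rw [Fintype.card_subtype_compl, Fintype.card_subtype_eq]; omega)
    have h2 := HolG_ext _ _ h1 (m j₀) (A j₀)
    refine HolG_congr _ _ _ _ (Equiv.piSplitAt j₀ (fun j => Fin (m j)))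
      (Equiv.piSplitAt j₀ (fun j => (Fin (m j) → α j))) (Equiv.piSplitAt j₀ α) ?_ ?_ h2
    · intro x
      simp only [mem_product, Fintype.mem_piFinset, mem_BX, Equiv.piSplitAt_apply]
      constructor
      · intro h
        exact ⟨fun i => h j₀ i, fun j i => h j i⟩
      · rintro ⟨h3, h4⟩ j i
        by_cases hj : j = j₀
        · subst hj; exact h3 i
        · exact h4 ⟨j, hj⟩ i
    · intro x i
      rfl

/-- the Hölder inequality for the boxes of an array -/
theorem HolG_grid (J : Type) [Fintype J] [DecidableEq J] (α : J → Type)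
    (m : J → ℕ) (A : ∀ j, Finset (α j)) : HolG (BX m A) (ent m) := HolG_grid_aux _ J α m A rfl

/-- the same with a further summation -/
theorem HolG_sum {κ ι X Y : Type*} [Fintype ι] (K : Finset κ) (XS : Finset X) (ev : X → ι → Y)
    (h : HolG XS ev) (F : ι → κ → Y → ℝ) (hF : ∀ i n y, 0 ≤ F i n y) :
    (∑ n ∈ K, Frm XS ev (fun i => F i n)) ^ Fintype.card ι ≤ ∏ i, ∑ n ∈ K, Frm XS ev (fun _ => F i n) := by
  have := sum_le_of_pow K (univ : Finset ι) (fun n => Frm XS ev (fun i => F i n))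
    (fun i n => Frm XS ev (fun _ => F i n)) (fun n _ => Frm_nonneg _ _ _ (fun i y => hF i n y))
    (fun i _ n _ => Frm_nonneg _ _ _ (fun _ y => hF i n y)) (fun n _ => by
      rw [card_univ]
      exact h (fun i => F i n) (fun i y => hF i n y))
  rw [card_univ] at this
  exact this

end Pool.Agent.TH891.AL
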