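import Mathlib
import Pool.Agent.TH891.BD.B7
import Pool.Agent.H362R2.R1.Poly

set_option autoImplicit false

/-! Prime values of one linear polynomial in residue classes, helper891. -/

namespace Pool.Agent.TH891.AL

open Finset Filter Topology Pool.Agent.H387R2 Pool.Agent.H362R2.R1

/-- the prime number theorem in progressions to moduli up to any power of the logarithm -/
theorem siegelG (A U : ℕ) : ∃ x0 : ℕ, ∀ x : ℕ, x0 ≤ x → ∀ q : ℕ, 1 ≤ q → (q : ℝ) ≤ Real.log x ^ A →
    ∀ a : ℕ, a < q → a.Coprime q → |H343E.piAP x q a - H343E.pi1 x / (Nat.totient q : ℝ)| ≤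
      x / Real.log x ^ U := by
  obtain ⟨B, x1, h⟩ := H343E.primes_of U (H343E.unsmoothed (U + 2))
  have hs := (Uni.log_pow_small ((B + 2 * A : ℕ) : ℝ) (η := 1) one_pos)
  obtain ⟨x2, hx2⟩ := eventually_atTop.1 (tendsto_natCast_atTop_atTop.eventually
    (hs.and (eventually_ge_atTop (Real.exp 1))))
  refine ⟨max x1 x2, fun x hx q hq hqx a ha hac => ?_⟩
  obtain ⟨h1, h2⟩ := hx2 x ((le_max_right _ _).trans hx)
  have hlog : 1 ≤ Real.log x := by
    rw [← Real.log_exp 1]
    exact Real.log_le_log (Real.exp_pos _) h2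
  have hL0 : 0 < Real.log x := by linarith
  rw [one_mul, Real.rpow_natCast] at h1
  have hB : 0 < Real.log x ^ B := by positivity
  have hq0 : (0:ℝ) ≤ q := Nat.cast_nonneg q
  have hq4 : (q:ℝ) ^ 2 * Real.log x ^ B ≤ x := by
    calc (q:ℝ) ^ 2 * Real.log x ^ B ≤ (Real.log x ^ A) ^ 2 * Real.log x ^ B := by gcongr
      _ = Real.log x ^ (B + 2 * A) := by rw [← pow_mul, ← pow_add]; congr 1; ring
      _ ≤ x := h1
  have hq1 : (1:ℝ) ≤ q := by exact_mod_cast hq
  classical
  have hmain := h x ((le_max_left _ _).trans hx) 1 le_rfl q (by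
      rw [le_div_iff₀ hB]
      refine le_trans ?_ hq4
      gcongr
      nlinarith) (by
      rw [one_mul, le_div_iff₀ hB]; exact hq4)
    (fun q' => if q' = q then {a} else ∅) ⟨by
      intro q' a' ha'
      split_ifs at ha' with hqq
      · rw [mem_singleton] at ha'
        rw [ha', hqq]
        exact ⟨ha, hac⟩
      · exact absurd ha' (notMem_empty _), by
      intro q'
      split_ifs
      · simp
      · simp⟩
  rw [one_mul] at hmain
  have hq' : q ∈ Icc 1 q := mem_Icc.2 ⟨hq, le_rfl⟩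
  have h3 := single_le_sum (f := fun q' => ∑ a' ∈ (if q' = q then ({a} : Finset ℕ) else ∅),
    |H343E.piAP x q' a' - H343E.pi1 x / (Nat.totient q' : ℝ)|)
    (fun i _ => sum_nonneg fun _ _ => abs_nonneg _) hq'
  beta_reduce at h3
  rw [if_pos rfl, sum_singleton] at h3
  exact h3.trans hmain

lemma totient_mul_le (a W : ℕ) : Nat.totient (a * W) ≤ a * Nat.totient W := by
  have h1 : Nat.totient (a * W) ≤ ((Ico 0 (a * W)).filter (fun x => W.Coprime x)).card := by
    rw [Nat.totient]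
    apply card_le_card
    intro x hx
    rw [mem_filter, mem_range] at hx
    rw [mem_filter, mem_Ico]
    exact ⟨⟨Nat.zero_le _, hx.1⟩, Nat.Coprime.coprime_dvd_left (Dvd.intro_left a rfl) hx.2⟩
  refine h1.trans (le_of_eq ?_)
  induction a with
  | zero => simp
  | succ a ih =>
    have h2 : Ico 0 ((a + 1) * W) = Ico 0 (a * W) ∪ Ico (a * W) (a * W + W) := by
      rw [Ico_union_Ico_eq_Ico (Nat.zero_le _) (Nat.le_add_right _ _)]
      congr 1
      ring
    rw [h2, filter_union, card_union_of_disjoint, ih ?_, Nat.filter_coprime_Ico_eq_totient W (a * W)]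
    · ring
    · rw [Nat.totient]
      apply card_le_card
      intro x hx
      rw [mem_filter, mem_range] at hx
      rw [mem_filter, mem_Ico]
      exact ⟨⟨Nat.zero_le _, hx.1⟩, Nat.Coprime.coprime_dvd_left (Dvd.intro_left a rfl) hx.2⟩
    · apply disjoint_filter_filter
      rw [disjoint_left]
      intro x hx hx'
      rw [mem_Ico] at hx hx'
      omega

/-- the arithmetic part -/
lemma class_count (a W N c : ℕ) (b : ℤ) (ha : 0 < a) (hW : 0 < W)
    (hab : IsCoprime (a : ℤ) b) (hcW : IsCoprime ((a : ℤ) * c + b) (W : ℤ)) :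
    ∃ r : ℕ, r < a * W ∧ r.Coprime (a * W) ∧
      H343E.piAP ((a : ℤ) * N + b).toNat (a * W) r ≤
        (((Icc 1 N).filter (fun n : ℕ => n ≡ c [MOD W] ∧ ((a : ℤ) * n + b).natAbs.Prime)).card : ℝ) +
          ((a + b.natAbs : ℕ) : ℝ) := by
  classical
  have haW : 0 < a * W := Nat.mul_pos ha hW
  have haW' : (0:ℤ) < ((a * W : ℕ) : ℤ) := by exact_mod_cast haW
  obtain ⟨r, hr⟩ : ∃ r : ℕ, r = (((a : ℤ) * c + b) % ((a * W : ℕ) : ℤ)).toNat := ⟨_, rfl⟩
  have hr' : (r : ℤ) = ((a : ℤ) * c + b) % ((a * W : ℕ) : ℤ) := by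
    rw [hr]; exact Int.toNat_of_nonneg (Int.emod_nonneg _ haW'.ne')
  have hrlt : r < a * W := by
    have := Int.emod_lt_of_pos ((a : ℤ) * c + b) haW'
    rw [← hr'] at this
    exact_mod_cast this
  have hcop : IsCoprime ((a : ℤ) * c + b) ((a * W : ℕ) : ℤ) := by
    push_cast
    apply IsCoprime.mul_right _ hcW
    have : IsCoprime ((a : ℤ) * c + b) (a : ℤ) := by
      rw [add_comm]
      exact (IsCoprime.add_mul_left_left_iff (z := (c : ℤ))).2 hab.symm
    exact this
  refine ⟨r, hrlt, ?_, ?_⟩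
  · have h1 : IsCoprime (r : ℤ) ((a * W : ℕ) : ℤ) := by
      have h0 : (a : ℤ) * c + b = (r : ℤ) + ((a * W : ℕ) : ℤ) * (((a : ℤ) * c + b) / ((a * W : ℕ) : ℤ)) := by
        rw [hr']; exact (Int.emod_add_mul_ediv _ _).symm
      rw [h0] at hcop
      exact (IsCoprime.add_mul_left_left_iff (z := ((a : ℤ) * c + b) / ((a * W : ℕ) : ℤ))).1 hcop
    exact Nat.isCoprime_iff_coprime.1 h1
  · unfold H343E.piAP
    rw [← Nat.cast_add]
    apply Nat.cast_le.2
    set S := (Icc 1 N).filter (fun n : ℕ => n ≡ c [MOD W] ∧ ((a : ℤ) * n + b).natAbs.Prime) with hS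
    have hsub : (Icc 1 ((a : ℤ) * N + b).toNat).filter (fun p => p.Prime ∧ p ≡ r [MOD (a * W)]) ⊆
        S.image (fun n : ℕ => ((a : ℤ) * n + b).natAbs) ∪ Icc 1 (a + b.natAbs) := by
      intro p hp
      rw [mem_filter, mem_Icc] at hp
      obtain ⟨⟨hp1, hp2⟩, hp3, hp4⟩ := hp
      rw [mem_union]
      rcases le_or_gt p (a + b.natAbs) with h | h
      · right; exact mem_Icc.2 ⟨hp1, h⟩
      · left
        -- the argument
        have h1 : ((a * W : ℕ) : ℤ) ∣ (p : ℤ) - ((a : ℤ) * c + b) := by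
          have h2 : (p : ℤ) ≡ (r : ℤ) [ZMOD ((a * W : ℕ) : ℤ)] := Int.natCast_modEq_iff.2 hp4
          have h3 : (r : ℤ) ≡ ((a : ℤ) * c + b) [ZMOD ((a * W : ℕ) : ℤ)] := by
            rw [hr']; exact Int.mod_modEq _ _
          exact (h2.trans h3).symm.dvd
        obtain ⟨t, ht⟩ := h1
        push_cast at ht
        obtain ⟨n, hn⟩ : ∃ n : ℤ, n = (c : ℤ) + W * t := ⟨_, rfl⟩
        have hpn : (p : ℤ) = (a : ℤ) * n + b := by rw [hn]; linarith
        have ha' : (0:ℤ) < a := by exact_mod_cast ha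
        have hn1 : 1 ≤ n := by
          have h4 : (a : ℤ) + b.natAbs < p := by exact_mod_cast h
          have h5 : b ≤ b.natAbs := Int.le_natAbs
          have h6 : (a : ℤ) < a * n := by linarith
          have h7 : (0:ℤ) < n := by
            by_contra hc0
            rw [not_lt] at hc0
            have : (a : ℤ) * n ≤ 0 := mul_nonpos_of_nonneg_of_nonpos ha'.le hc0
            linarith
          linarith
        have hX : ((((a : ℤ) * N + b).toNat : ℕ) : ℤ) = (a : ℤ) * N + b := by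
          apply Int.toNat_of_nonneg
          by_contra hneg
          rw [not_le] at hneg
          have : ((a : ℤ) * N + b).toNat = 0 := Int.toNat_of_nonpos hneg.le
          omega
        have hnN : n ≤ N := by
          have h4 : (p : ℤ) ≤ (a : ℤ) * N + b := by rw [← hX]; exact_mod_cast hp2
          have h5 : (a : ℤ) * n ≤ a * N := by linarith
          exact le_of_mul_le_mul_left h5 ha'
        obtain ⟨m, rfl⟩ : ∃ m : ℕ, n = (m : ℤ) := ⟨n.toNat, (Int.toNat_of_nonneg (by linarith)).symm⟩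
        refine mem_image.2 ⟨m, ?_, ?_⟩
        · rw [hS, mem_filter, mem_Icc]
          refine ⟨⟨by exact_mod_cast hn1, by exact_mod_cast hnN⟩, ?_, ?_⟩
          · have h8 : (m : ℤ) ≡ (c : ℤ) [ZMOD (W : ℤ)] := by
              rw [hn]
              exact (Int.modEq_iff_dvd.2 ⟨-t, by ring⟩)
            exact Int.natCast_modEq_iff.1 h8
          · rw [← hpn, Int.natAbs_natCast]; exact hp3
        · rw [← hpn, Int.natAbs_natCast]
    refine (card_le_card hsub).trans ((card_union_le _ _).trans ?_)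
    refine Nat.add_le_add card_image_le ?_
    rw [Nat.card_Icc]; omega

set_option maxHeartbeats 1000000 in
/-- prime values of a linear polynomial in a residue class, lower bound -/
theorem class_prime (c A : ℕ) {δ : ℝ} (hδ : 0 < δ) (hδ1 : δ ≤ 1) : ∀ᶠ N : ℕ in atTop, ∀ W : ℕ, 1 ≤ W →
    (W : ℝ) ≤ Real.log N ^ A → ∀ f : ℤ × ℤ, 0 < f.1 → |(f.1 : ℝ)| ≤ Real.log N ^ c →
    |(f.2 : ℝ)| ≤ Real.log N ^ c → IsCoprime f.1 f.2 → ∀ b : ℕ, IsCoprime (f.1 * b + f.2) (W : ℤ) →
    (1 - δ) * (N / (Nat.totient W * Real.log N)) ≤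
      (((Icc 1 N).filter (fun n : ℕ => n ≡ b [MOD W] ∧ (f.1 * n + f.2).natAbs.Prime)).card : ℝ) := by
  obtain ⟨η, hη⟩ : ∃ η : ℝ, η = δ / 8 := ⟨_, rfl⟩
  have hη0 : 0 < η := by rw [hη]; positivity
  have hη1 : η ≤ 1 / 8 := by rw [hη]; linarith
  obtain ⟨U, hU⟩ : ∃ U : ℕ, U = c + A + 3 := ⟨_, rfl⟩
  obtain ⟨x0, hSW⟩ := siegelG (c + A + 1) U
  obtain ⟨x1, hx1⟩ := eventually_atTop.1 (Uni.pi1_lower hη0)
  have tN : Tendsto (fun N : ℕ => (N : ℝ)) atTop atTop := tendsto_natCast_atTop_atTop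
  have tL : Tendsto (fun N : ℕ => Real.log (N : ℝ)) atTop atTop := Real.tendsto_log_atTop.comp tN
  have e1 := tN.eventually (Uni.log_pow_small (c : ℕ) (η := η / 2) (by positivity))
  have e2 := tN.eventually (Uni.log_pow_small ((c + A + 1 : ℕ) : ℝ) (η := η / 2) (by positivity))
  have e3 := tL.eventually_ge_atTop (max 2 (2 ^ (U + 1 + c + A) / η))
  have e4 : ∀ᶠ N : ℕ in atTop, (c : ℝ) * Real.log (Real.log N) + 1 ≤ η * Real.log N := by
    have h := (isLittleO_log_rpow_atTop (r := 1) one_pos).def (show 0 < η / (2 * (c + 1)) by positivity)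
    filter_upwards [tL.eventually h, tL.eventually_ge_atTop (max 2 (2 / η))] with N h1 h2
    have hL4 : 2 ≤ Real.log N := (le_max_left _ _).trans h2
    have hLd : 2 / η ≤ Real.log N := (le_max_right _ _).trans h2
    rw [Real.rpow_one, Real.norm_of_nonneg (by linarith : 0 ≤ Real.log N),
      Real.norm_of_nonneg (Real.log_nonneg (by linarith))] at h1
    rw [div_le_iff₀ hη0] at hLd
    have hc0 : (0:ℝ) ≤ c := Nat.cast_nonneg c
    have h5 : (c : ℝ) * Real.log (Real.log N) ≤ (c + 1) * (η / (2 * (c + 1)) * Real.log N) := by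
      have h6 : 0 ≤ Real.log (Real.log N) := Real.log_nonneg (by linarith)
      have h7 : (c : ℝ) * Real.log (Real.log N) ≤ (c + 1) * Real.log (Real.log N) :=
        mul_le_mul_of_nonneg_right (by linarith) h6
      exact h7.trans (mul_le_mul_of_nonneg_left h1 (by linarith))
    have h8 : ((c:ℝ) + 1) * (η / (2 * (c + 1)) * Real.log N) = η / 2 * Real.log N := by field_simp
    rw [h8] at h5
    linarith
  filter_upwards [e1, e2, e3, e4, eventually_ge_atTop (2 * (x0 + x1 + 3))] with N h1 h2 h3 h4 h5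
  intro W hW hWA f hf1 hfa hfb hcop b hb
  obtain ⟨a, ha⟩ : ∃ a : ℕ, (a : ℤ) = f.1 := ⟨f.1.toNat, Int.toNat_of_nonneg hf1.le⟩
  obtain ⟨L, hL⟩ : ∃ L : ℝ, L = Real.log N := ⟨_, rfl⟩
  rw [← hL] at h1 h2 h3 h4 hWA hfa hfb ⊢
  have hL2 : 2 ≤ L := (le_max_left _ _).trans h3
  have hLd : 2 ^ (U + 1 + c + A) / η ≤ L := (le_max_right _ _).trans h3
  have hL0 : 0 < L := by linarith
  rw [Real.rpow_natCast] at h1 h2
  have ha1 : 1 ≤ a := by
    have : (0:ℤ) < a := by rw [ha]; exact hf1
    exact_mod_cast this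
  have haL : (a : ℝ) ≤ L ^ c := by
    have : ((a : ℤ) : ℝ) = (f.1 : ℝ) := by rw [ha]
    have h6 : (a : ℝ) = (f.1 : ℝ) := by exact_mod_cast this
    rw [h6]
    exact (le_abs_self _).trans hfa
  have ha1' : (1:ℝ) ≤ a := by exact_mod_cast ha1
  have hN0 : (0:ℝ) < N := by
    have : 0 < N := by omega
    exact_mod_cast this
  have hbN : |(f.2 : ℝ)| ≤ η / 2 * N := hfb.trans h1
  obtain ⟨r, hr1, hr2, hr3⟩ := class_count a W N b f.2 ha1 hW (by rw [ha]; exact hcop) (by rw [ha]; exact hb)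
  rw [ha] at hr3
  obtain ⟨X, hX⟩ : ∃ X : ℕ, X = (f.1 * N + f.2).toNat := ⟨_, rfl⟩
  have hXr : (X : ℝ) = a * N + f.2 := by
    have h6 : (0:ℤ) ≤ f.1 * N + f.2 := by
      have h7 : (0:ℝ) ≤ a * N + (f.2 : ℝ) := by
        have := neg_abs_le (f.2 : ℝ)
        nlinarith
      have h8 : (0:ℝ) ≤ ((f.1 * N + f.2 : ℤ) : ℝ) := by
        push_cast
        rw [← ha]
        exact_mod_cast h7
      exact_mod_cast h8
    have h9 : (X : ℤ) = f.1 * N + f.2 := by rw [hX]; exact Int.toNat_of_nonneg h6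
    have h10 : ((X : ℤ) : ℝ) = ((f.1 * N + f.2 : ℤ) : ℝ) := by rw [h9]
    push_cast at h10
    rw [← ha] at h10
    exact_mod_cast h10
  rw [← hX] at hr3
  have hXlow : (1 - η / 2) * (a * N) ≤ X := by
    rw [hXr]
    have := neg_abs_le (f.2 : ℝ)
    have h6 : η / 2 * N ≤ η / 2 * (a * N) := by
      have : (N : ℝ) ≤ a * N := by nlinarith
      gcongr
    linarith
  have hXN : (N : ℝ) / 2 ≤ X := by
    have : (N : ℝ) ≤ a * N := by nlinarith
    nlinarith
  have hXup : (X : ℝ) ≤ 2 * (N * L ^ c) := by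
    rw [hXr]
    have h6 := le_abs_self (f.2 : ℝ)
    have h7 : (a : ℝ) * N ≤ L ^ c * N := mul_le_mul_of_nonneg_right haL hN0.le
    have h8 : |(f.2 : ℝ)| ≤ L ^ c * N := by
      have : (1:ℝ) ≤ N := by
        have : 1 ≤ N := by omega
        exact_mod_cast this
      have h9 : 0 ≤ L ^ c := by positivity
      calc |(f.2 : ℝ)| ≤ L ^ c := hfb
        _ ≤ L ^ c * N := le_mul_of_one_le_right h9 this
    linarith
  have hX0 : (0:ℝ) < X := by linarith
  have hlogX1 : L / 2 ≤ Real.log X := by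
    have a1 : Real.log ((N : ℝ) / 2) ≤ Real.log X := Real.log_le_log (by positivity) hXN
    rw [Real.log_div hN0.ne' (by norm_num), ← hL] at a1
    have a2 : Real.log 2 < 1 := by
      have := Real.log_two_lt_d9; linarith
    linarith
  have hlogX2 : Real.log X ≤ (1 + η) * L := by
    have a1 : Real.log X ≤ Real.log (2 * (N * L ^ c)) := Real.log_le_log hX0 hXup
    rw [Real.log_mul (by norm_num) (by positivity), Real.log_mul hN0.ne' (by positivity), Real.log_pow, ← hL] at a1
    have a2 : Real.log 2 < 1 := by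
      have := Real.log_two_lt_d9; linarith
    linarith
  have hlogX0 : 0 < Real.log X := by linarith
  have hXx : x0 ≤ X ∧ x1 ≤ X := by
    have h6 : ((x0 + x1 : ℕ) : ℝ) ≤ X := by
      have h7 : ((2 * (x0 + x1 + 3) : ℕ) : ℝ) ≤ N := by exact_mod_cast h5
      push_cast at h7 ⊢
      linarith
    have h7 : x0 + x1 ≤ X := by exact_mod_cast h6
    omega
  have hW0 : (0:ℝ) < W := by exact_mod_cast hW
  have hφ0 : (0:ℝ) < Nat.totient W := by exact_mod_cast Nat.totient_pos.2 hW
  have hφW : (Nat.totient W : ℝ) ≤ L ^ A := (by exact_mod_cast Nat.totient_le W : (Nat.totient W : ℝ) ≤ W).trans hWA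
  have hmod : ((a * W : ℕ) : ℝ) ≤ Real.log X ^ (c + A + 1) := by
    push_cast
    calc (a : ℝ) * W ≤ L ^ c * L ^ A := by gcongr
      _ = L ^ (c + A) := (pow_add _ _ _).symm
      _ ≤ (L / 2) ^ (c + A + 1) := by
          rw [div_pow, le_div_iff₀ (by positivity), pow_succ L]
          have h6 : (2:ℝ) ^ (c + A + 1) ≤ L := by
            refine le_trans ?_ hLd
            rw [le_div_iff₀ hη0]
            calc (2:ℝ) ^ (c + A + 1) * η ≤ 2 ^ (c + A + 1) * 1 := by gcongr; linarith
              _ ≤ 2 ^ (U + 1 + c + A) := by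
                  rw [mul_one]
                  exact pow_le_pow_right₀ (by norm_num) (by omega)
          exact mul_le_mul_of_nonneg_left h6 (by positivity)
      _ ≤ Real.log X ^ (c + A + 1) := pow_le_pow_left₀ (by positivity) hlogX1 _
  have g1 := (abs_le.1 (hSW X hXx.1 (a * W) (Nat.mul_pos ha1 hW) hmod r hr1 hr2)).1
  have g2 := hx1 X hXx.2
  -- the main term
  have hφaW : (Nat.totient (a * W) : ℝ) ≤ a * Nat.totient W := by exact_mod_cast totient_mul_le a W
  have hφaW0 : (0:ℝ) < Nat.totient (a * W) := by exact_mod_cast Nat.totient_pos.2 (Nat.mul_pos ha1 hW)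
  obtain ⟨V, hV⟩ : ∃ V : ℝ, V = N / (Nat.totient W * L) := ⟨_, rfl⟩
  have hV0 : 0 < V := by rw [hV]; positivity
  rw [← hV]
  have g3 : (1 - 3 * η) * V ≤ H343E.pi1 X / (Nat.totient (a * W) : ℝ) := by
    have i1 : (1 - η) * ((1 - η / 2) * (a * N) / ((1 + η) * L)) ≤ H343E.pi1 X := by
      refine le_trans ?_ g2
      apply mul_le_mul_of_nonneg_left _ (by linarith)
      exact div_le_div₀ hX0.le hXlow hlogX0 hlogX2
    have i2 : (1 - 3 * η) * (a * N / L) ≤ (1 - η) * ((1 - η / 2) * (a * N) / ((1 + η) * L)) := by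
      have i3 : (1 - η) * ((1 - η / 2) * (a * N) / ((1 + η) * L)) =
          ((1 - η) * (1 - η / 2) / (1 + η)) * (a * N / L) := by
        field_simp
      rw [i3]
      apply mul_le_mul_of_nonneg_right _ (by positivity)
      rw [le_div_iff₀ (by linarith)]
      nlinarith
    have i4 : (1 - 3 * η) * V * (Nat.totient (a * W) : ℝ) ≤ H343E.pi1 X := by
      refine le_trans ?_ (i2.trans i1)
      have i5 : 0 ≤ (1 - 3 * η) * V := mul_nonneg (by linarith) hV0.le
      calc (1 - 3 * η) * V * (Nat.totient (a * W) : ℝ) ≤ (1 - 3 * η) * V * (a * Nat.totient W) :=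
            mul_le_mul_of_nonneg_left hφaW i5
        _ = (1 - 3 * η) * (a * N / L) := by rw [hV]; field_simp
    rw [le_div_iff₀ hφaW0]
    exact i4
  -- the errors
  have hVlow : N / L ^ (A + 1) ≤ V := by
    rw [hV]
    apply div_le_div_of_nonneg_left hN0.le (by positivity)
    rw [pow_succ]
    exact mul_le_mul_of_nonneg_right hφW hL0.le
  have g4 : (X : ℝ) / Real.log X ^ U ≤ η * V := by
    refine le_trans ?_ (mul_le_mul_of_nonneg_left hVlow hη0.le)
    calc (X : ℝ) / Real.log X ^ U ≤ 2 * (N * L ^ c) / (L / 2) ^ U := by gcongr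
      _ = (2 ^ (U + 1) / L ^ 2) * (N / L ^ (A + 1)) := by
          have e : L ^ U = L ^ c * L ^ (A + 1) * L ^ 2 := by
            rw [hU, ← pow_add, ← pow_add]; congr 1
          rw [div_pow, e, pow_succ (2:ℝ) U]
          field_simp
      _ ≤ η * (N / L ^ (A + 1)) := by
          apply mul_le_mul_of_nonneg_right _ (by positivity)
          rw [div_le_iff₀ (by positivity)]
          rw [div_le_iff₀ hη0] at hLd
          calc (2:ℝ) ^ (U + 1) ≤ 2 ^ (U + 1 + c + A) := pow_le_pow_right₀ (by norm_num) (by omega)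
            _ ≤ L * η := hLd
            _ ≤ η * L ^ 2 := by
                have i3 : L ≤ L ^ 2 := by nlinarith
                have := mul_le_mul_of_nonneg_left i3 hη0.le
                linarith
  have g5 : ((a + f.2.natAbs : ℕ) : ℝ) ≤ η * V := by
    refine le_trans ?_ (mul_le_mul_of_nonneg_left hVlow hη0.le)
    have i1 : ((f.2.natAbs : ℕ) : ℝ) = |(f.2 : ℝ)| := by
      rw [Nat.cast_natAbs]; push_cast; rfl
    push_cast
    rw [i1, mul_div_assoc', le_div_iff₀ (by positivity)]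
    calc ((a : ℝ) + |(f.2 : ℝ)|) * L ^ (A + 1) ≤ (L ^ c + L ^ c) * L ^ (A + 1) := by gcongr
      _ = 2 * L ^ (c + A + 1) := by rw [add_assoc c A 1, pow_add L c]; ring
      _ ≤ 2 * (η / 2 * N) := by gcongr
      _ = η * N := by ring
  have e8 : (1 - δ) * V ≤ (1 - 3 * η) * V - η * V - η * V := by
    have : δ = 8 * η := by rw [hη]; ring
    rw [this]; nlinarith
  linarith

end Pool.Agent.TH891.AL
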