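import Mathlib
import Pool.Agent.TH891.AL.L1
import Pool.Agent.TH891.AL.L2

set_option autoImplicit false

/-! Lower bounds for arrays of linear polynomials, helper891. -/

namespace Pool.Agent.TH891.AL

open Finset Filter Topology Pool.Agent.H387R2 Pool.Agent.H362R2.R1

open Classical in
/-- the residues modulo `q` at which some form is coprime to `q` -/
noncomputable def Gq (q : ℕ) (V : Finset (ℤ × ℤ)) : Finset ℕ :=
  (range q).filter (fun r : ℕ => ∃ f ∈ V, IsCoprime (f.1 * (r : ℤ) + f.2) (q : ℤ))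

/-- the density of these residues -/
noncomputable def dn (q : ℕ) (V : Finset (ℤ × ℤ)) : ℝ := ((Gq q V).card : ℝ) / q

/-- the integers in these residue classes -/
noncomputable def Rn (q : ℕ) (V : Finset (ℤ × ℤ)) (S : Finset ℕ) : Finset ℕ := S.filter (fun n => n % q ∈ Gq q V)

/-- no small prime divides the value -/
def Fr (z : ℕ) (f : ℤ × ℤ) (n : ℕ) : Prop := ∀ p ∈ (z + 1).primesBelow, ¬ (p : ℤ) ∣ f.1 * (n : ℤ) + f.2

lemma cop_of {m z : ℕ} (hm : ∀ p : ℕ, p.Prime → p ∣ m → p ≤ z) {a : ℤ}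
    (h : ∀ p ∈ (z + 1).primesBelow, ¬ (p : ℤ) ∣ a) : IsCoprime a (m : ℤ) := by
  by_contra hc
  rw [Int.isCoprime_iff_gcd_eq_one, Int.gcd, Int.natAbs_natCast] at hc
  obtain ⟨p, hp, hp1, hp2⟩ := Nat.Prime.not_coprime_iff_dvd.1 hc
  refine h p (Nat.mem_primesBelow.2 ⟨?_, hp⟩) (Int.natCast_dvd.2 hp1)
  have := hm p hp hp2
  omega

lemma Fr.copW {z : ℕ} {f : ℤ × ℤ} {n : ℕ} (h : Fr z f n) : IsCoprime (f.1 * (n : ℤ) + f.2) (Uni.WW z : ℤ) := by
  apply cop_of _ h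
  intro p hp hpd
  have : p ∈ (Uni.WW z).primeFactors := Nat.mem_primeFactors.2 ⟨hp, hpd, (Uni.WW_pos z).ne'⟩
  rw [Uni.WW_factors, Nat.mem_primesBelow] at this
  omega

lemma Fr_mod {z : ℕ} {f : ℤ × ℤ} {n b : ℕ} (h : n ≡ b [MOD Uni.WW z]) (hn : Fr z f n) : Fr z f b := by
  intro p hp hd
  apply hn p hp
  have h1 : p ∣ Uni.WW z := by
    unfold Uni.WW
    exact dvd_prod_of_mem _ hp
  have h2 : (n : ℤ) ≡ (b : ℤ) [ZMOD (p : ℤ)] := Int.natCast_modEq_iff.2 (h.of_dvd h1)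
  have h3 : f.1 * (n : ℤ) + f.2 ≡ f.1 * (b : ℤ) + f.2 [ZMOD (p : ℤ)] := (h2.mul_left _).add_right _
  exact (Int.ModEq.dvd_iff h3).2 hd

lemma Fr_q {q z : ℕ} (hq : 1 ≤ q) (hqz : q ≤ z) {V : Finset (ℤ × ℤ)} {f : ℤ × ℤ} (hf : f ∈ V) {n : ℕ}
    (hn : Fr z f n) : n % q ∈ Gq q V := by
  classical
  unfold Gq
  rw [mem_filter, mem_range]
  refine ⟨Nat.mod_lt _ (by omega), f, hf, ?_⟩
  have h1 : IsCoprime (f.1 * (n : ℤ) + f.2) (q : ℤ) :=
    cop_of (fun p _ hpd => (Nat.le_of_dvd (by omega) hpd).trans hqz) hn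
  have h2 : f.1 * (n : ℤ) + f.2 = (f.1 * ((n % q : ℕ) : ℤ) + f.2) + (q : ℤ) * (f.1 * ((n / q : ℕ) : ℤ)) := by
    have h3 : (n : ℤ) = ((n % q : ℕ) : ℤ) + q * ((n / q : ℕ) : ℤ) := by exact_mod_cast (Nat.mod_add_div n q).symm
    rw [h3]
    push_cast
    ring
  rw [h2] at h1
  exact (IsCoprime.add_mul_left_left_iff (z := (f.1 * ((n / q : ℕ) : ℤ)))).1 h1

open Classical in
/-- indicator of prime values -/
noncomputable def prf (n : ℕ) (f : ℤ × ℤ) : ℝ := if (f.1 * (n : ℤ) + f.2).natAbs.Prime then 1 else 0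

open Classical in
/-- indicator of values without small prime factors -/
noncomputable def cpf (z n : ℕ) (f : ℤ × ℤ) : ℝ := if Fr z f n then 1 else 0

lemma prf_nonneg (n : ℕ) (f : ℤ × ℤ) : 0 ≤ prf n f := by unfold prf; split_ifs <;> norm_num
lemma prf_le_one (n : ℕ) (f : ℤ × ℤ) : prf n f ≤ 1 := by unfold prf; split_ifs <;> norm_num
lemma cpf_nonneg (z n : ℕ) (f : ℤ × ℤ) : 0 ≤ cpf z n f := by unfold cpf; split_ifs <;> norm_num

open Classical in
lemma prod_prf {ι : Type*} [Fintype ι] (n : ℕ) (v : ι → ℤ × ℤ) :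
    ∏ i, prf n (v i) = if ∀ i, ((v i).1 * (n : ℤ) + (v i).2).natAbs.Prime then 1 else 0 := by
  unfold prf
  rw [prod_ite_zero]
  simp

open Classical in
lemma prod_cpf {ι : Type*} [Fintype ι] (z n : ℕ) (v : ι → ℤ × ℤ) :
    ∏ i, cpf z n (v i) = if ∀ i, Fr z (v i) n then 1 else 0 := by
  unfold cpf
  rw [prod_ite_zero]
  simp

open Classical in
/-- good classes of a system -/
noncomputable def gc {ι : Type*} [Fintype ι] (z : ℕ) (v : ι → ℤ × ℤ) : Finset ℕ :=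
  (range (Uni.WW z)).filter (fun b => ∀ i, Fr z (v i) b)

open Classical in
lemma card_gc {ι : Type*} [Fintype ι] (z : ℕ) (v : ι → ℤ × ℤ) : (gc z v).card = gz z (univ.image v) := by
  unfold gc gz Fr
  congr 1
  ext b
  simp only [mem_filter]
  apply and_congr_right
  intro _
  constructor
  · intro h p hp f hf
    obtain ⟨i, _, rfl⟩ := mem_image.1 hf
    exact h i p hp
  · intro h i p hp
    exact h p hp _ (mem_image_of_mem _ (mem_univ i))

/-- the forms allowed -/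
def OK (H : ℝ) (f : ℤ × ℤ) : Prop := 0 < f.1 ∧ IsCoprime f.1 f.2 ∧ |(f.1 : ℝ)| ≤ H ∧ |(f.2 : ℝ)| ≤ H

/-- the conditions on the parameters -/
structure Pr (k : ℕ) (δ : ℝ) (q N z : ℕ) (H : ℝ) : Prop where
  hL : 1 ≤ Real.log N
  hWN : (Uni.WW z : ℝ) ≤ δ * N
  hqz : q ≤ z
  hqW : (q : ℝ) ≤ δ * Uni.WW z
  cls : ∀ f : ℤ × ℤ, OK H f → ∀ b : ℕ, IsCoprime (f.1 * (b : ℤ) + f.2) (Uni.WW z : ℤ) →
    (1 - δ) * (N / (Nat.totient (Uni.WW z) * Real.log N)) ≤
      (((Icc 1 N).filter (fun n : ℕ => n ≡ b [MOD Uni.WW z] ∧ (f.1 * n + f.2).natAbs.Prime)).card : ℝ)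
  bh : ∀ T : Finset (ℤ × ℤ), T.card = k + 1 → (∀ f ∈ T, OK H f) →
    BH T ≤ (1 + δ) * (((Uni.WW z : ℝ) / Nat.totient (Uni.WW z)) ^ (k + 1) * ((gz z T : ℝ) / Uni.WW z))

variable {k : ℕ} {δ : ℝ} {q N z : ℕ} {H : ℝ}

lemma card_class (hW : 0 < q) (N b : ℕ) : (((Icc 1 N).filter (fun n => n ≡ b [MOD q])).card : ℝ) ≤ N / q + 1 := by
  have h := (Uni.size_bounds 0 N b hW (Nat.zero_le N)).2
  have e : Ioc 0 N = Icc 1 N := by ext n; simp [Nat.lt_iff_add_one_le]
  rw [e] at h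
  simpa using h

lemma card_class' (hW : 0 < q) (N b : ℕ) : (N : ℝ) / q - 1 ≤ (((Icc 1 N).filter (fun n => n ≡ b [MOD q])).card : ℝ) := by
  have h := (Uni.size_bounds 0 N b hW (Nat.zero_le N)).1
  have e : Ioc 0 N = Icc 1 N := by ext n; simp [Nat.lt_iff_add_one_le]
  rw [e] at h
  simpa using h

lemma card_Rn (hq : 1 ≤ q) (V : Finset (ℤ × ℤ)) (N : ℕ) : ((Rn q V (Icc 1 N)).card : ℝ) ≤ (Gq q V).card * (N / q + 1) := by
  classical
  unfold Rn
  have h1 : ((Icc 1 N).filter (fun n => n % q ∈ Gq q V)) ⊆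
      (Gq q V).biUnion (fun r => (Icc 1 N).filter (fun n => n ≡ r [MOD q])) := by
    intro n hn
    rw [mem_filter] at hn
    rw [mem_biUnion]
    exact ⟨n % q, hn.2, mem_filter.2 ⟨hn.1, (Nat.mod_modEq n q).symm⟩⟩
  calc (((Icc 1 N).filter (fun n => n % q ∈ Gq q V)).card : ℝ)
      ≤ (∑ r ∈ Gq q V, ((Icc 1 N).filter (fun n => n ≡ r [MOD q])).card : ℕ) :=
        Nat.cast_le.2 ((card_le_card h1).trans card_biUnion_le)
    _ = ∑ r ∈ Gq q V, (((Icc 1 N).filter (fun n => n ≡ r [MOD q])).card : ℝ) := by push_cast; rfl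
    _ ≤ ∑ _r ∈ Gq q V, ((N : ℝ) / q + 1) := sum_le_sum fun r _ => card_class hq N r
    _ = _ := by rw [sum_const, nsmul_eq_mul]

lemma card_Rn' (hq : 1 ≤ q) (V : Finset (ℤ × ℤ)) (W : ℕ) : ((Rn q V (range W)).card : ℝ) ≤ (Gq q V).card * (W / q + 1) := by
  classical
  unfold Rn
  have h1 : ((range W).filter (fun n => n % q ∈ Gq q V)) ⊆
      (Gq q V).biUnion (fun r => (range W).filter (fun n => n ≡ r [MOD q])) := by
    intro n hn
    rw [mem_filter] at hn
    rw [mem_biUnion]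
    exact ⟨n % q, hn.2, mem_filter.2 ⟨hn.1, (Nat.mod_modEq n q).symm⟩⟩
  have h2 : ∀ r, (((range W).filter (fun n => n ≡ r [MOD q])).card : ℝ) ≤ (W : ℝ) / q + 1 := by
    intro r
    refine le_trans ?_ (card_class hq W (r + 1))
    apply Nat.cast_le.2
    apply card_le_card_of_injOn (fun n => n + 1)
    · intro n hn
      rw [mem_coe, mem_filter, mem_range] at hn
      rw [mem_coe, mem_filter, mem_Icc]
      beta_reduce
      exact ⟨⟨by omega, by omega⟩, hn.2.add_right 1⟩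
    · intro a _ b _ h
      exact Nat.succ_injective h
  calc (((range W).filter (fun n => n % q ∈ Gq q V)).card : ℝ)
      ≤ (∑ r ∈ Gq q V, ((range W).filter (fun n => n ≡ r [MOD q])).card : ℕ) :=
        Nat.cast_le.2 ((card_le_card h1).trans card_biUnion_le)
    _ = ∑ r ∈ Gq q V, (((range W).filter (fun n => n ≡ r [MOD q])).card : ℝ) := by push_cast; rfl
    _ ≤ ∑ _r ∈ Gq q V, ((W : ℝ) / q + 1) := sum_le_sum fun r _ => h2 r
    _ = _ := by rw [sum_const, nsmul_eq_mul]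

lemma card_Rn_le (hP : Pr k δ q N z H) (hδ : 0 < δ) (hδ1 : δ ≤ 1) (hq : 1 ≤ q) (V : Finset (ℤ × ℤ)) :
    ((Rn q V (Icc 1 N)).card : ℝ) ≤ (1 + δ) * dn q V * N := by
  refine (card_Rn hq V N).trans ?_
  have hq0 : (0:ℝ) < q := by exact_mod_cast hq
  have hN0 : (0:ℝ) ≤ N := Nat.cast_nonneg N
  have h1 : (1:ℝ) ≤ δ * N / q := by
    rw [le_div_iff₀ hq0, one_mul]
    refine hP.hqW.trans ?_
    apply mul_le_mul_of_nonneg_left _ hδ.le
    refine hP.hWN.trans ?_
    nlinarith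
  have h2 : (0:ℝ) ≤ (Gq q V).card := Nat.cast_nonneg _
  unfold dn
  calc ((Gq q V).card : ℝ) * (N / q + 1) ≤ (Gq q V).card * (N / q + δ * N / q) := by gcongr
    _ = _ := by field_simp

lemma card_Rn_le' (hP : Pr k δ q N z H) (hq : 1 ≤ q) (V : Finset (ℤ × ℤ)) :
    ((Rn q V (range (Uni.WW z))).card : ℝ) ≤ (1 + δ) * dn q V * Uni.WW z := by
  refine (card_Rn' hq V _).trans ?_
  have hq0 : (0:ℝ) < q := by exact_mod_cast hq
  have h1 : (1:ℝ) ≤ δ * Uni.WW z / q := by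
    rw [le_div_iff₀ hq0, one_mul]
    exact hP.hqW
  have h2 : (0:ℝ) ≤ (Gq q V).card := Nat.cast_nonneg _
  unfold dn
  calc ((Gq q V).card : ℝ) * (Uni.WW z / q + 1) ≤ (Gq q V).card * (Uni.WW z / q + δ * Uni.WW z / q) := by gcongr
    _ = _ := by field_simp

/-- one prime condition, no small prime factors at the other forms -/
lemma mixed_lower {ι : Type*} [Fintype ι] [DecidableEq ι] (hP : Pr k δ q N z H)
    (hq : 1 ≤ q) {V : Finset (ℤ × ℤ)} (hV : ∀ f ∈ V, OK H f) (v : ι → ℤ × ℤ) (hv : ∀ i, v i ∈ V) (i₀ : ι) :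
    (1 - δ) * (N / (Nat.totient (Uni.WW z) * Real.log N)) * (gc z v).card ≤
      ∑ n ∈ Rn q V (Icc 1 N), ∏ i, (if i = i₀ then prf n (v i) else cpf z n (v i)) := by
  classical
  obtain ⟨W, hW⟩ : ∃ W, W = Uni.WW z := ⟨_, rfl⟩
  have h1 : (1 - δ) * (N / (Nat.totient (Uni.WW z) * Real.log N)) * (gc z v).card ≤
      ∑ b ∈ gc z v, ∑ n ∈ Icc 1 N, (if n ≡ b [MOD W] ∧ ((v i₀).1 * n + (v i₀).2).natAbs.Prime then (1:ℝ) else 0) := by
    rw [mul_comm, ← nsmul_eq_mul, ← sum_const]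
    apply sum_le_sum
    intro b hb
    have hb' : Fr z (v i₀) b := by
      unfold gc at hb
      exact (mem_filter.1 hb).2 i₀
    refine (hP.cls (v i₀) (hV _ (hv i₀)) b hb'.copW).trans (le_of_eq ?_)
    rw [← sum_filter, sum_const, nsmul_eq_mul, mul_one, hW]
  refine h1.trans ?_
  rw [sum_comm]
  unfold Rn
  rw [sum_filter]
  apply sum_le_sum
  intro n _
  by_cases hn : ∃ b ∈ gc z v, n ≡ b [MOD W] ∧ ((v i₀).1 * n + (v i₀).2).natAbs.Prime
  · obtain ⟨b, hb, hnb, hnp⟩ := hn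
    have hb' : ∀ i, Fr z (v i) b := by
      unfold gc at hb
      exact (mem_filter.1 hb).2
    rw [hW] at hnb
    have hcop : ∀ i, Fr z (v i) n := fun i => Fr_mod hnb.symm (hb' i)
    have h2 : n % q ∈ Gq q V := Fr_q hq hP.hqz (hv i₀) (hcop i₀)
    rw [if_pos h2]
    have h3 : ∏ i, (if i = i₀ then prf n (v i) else cpf z n (v i)) = 1 := by
      apply prod_eq_one
      intro i _
      by_cases hi : i = i₀
      · rw [if_pos hi, hi]; unfold prf; rw [if_pos hnp]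
      · rw [if_neg hi]; unfold cpf; rw [if_pos (hcop i)]
    rw [h3, ← sum_filter, sum_const, nsmul_eq_mul, mul_one]
    have h4 : ((gc z v).filter (fun b => n ≡ b [MOD W] ∧ ((v i₀).1 * n + (v i₀).2).natAbs.Prime)).card ≤ 1 := by
      rw [card_le_one]
      intro b1 hb1 b2 hb2
      unfold gc at hb1 hb2
      rw [mem_filter, mem_filter, mem_range] at hb1 hb2
      have h5 : b1 ≡ b2 [MOD W] := hb1.2.1.symm.trans hb2.2.1
      rw [hW, Nat.ModEq, Nat.mod_eq_of_lt hb1.1.1, Nat.mod_eq_of_lt hb2.1.1] at h5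
      exact h5
    exact_mod_cast h4
  · have h2 : ∑ b ∈ gc z v, (if n ≡ b [MOD W] ∧ ((v i₀).1 * n + (v i₀).2).natAbs.Prime then (1:ℝ) else 0) = 0 := by
      apply sum_eq_zero
      intro b hb
      have h3 : ¬ (n ≡ b [MOD W] ∧ ((v i₀).1 * n + (v i₀).2).natAbs.Prime) := fun h => hn ⟨b, hb, h⟩
      rw [if_neg h3]
    rw [h2]
    split_ifs
    · apply prod_nonneg
      intro i _
      split_ifs
      · exact prf_nonneg _ _
      · exact cpf_nonneg _ _ _
    · exact le_rfl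

/-- no small prime factors at all forms -/
lemma free_upper {ι : Type*} [Fintype ι] (hP : Pr k δ q N z H) (V : Finset (ℤ × ℤ)) (v : ι → ℤ × ℤ) :
    ∑ n ∈ Rn q V (Icc 1 N), ∏ i, cpf z n (v i) ≤ (1 + δ) * (N / Uni.WW z) * (gc z v).card := by
  classical
  have hW0 : 0 < Uni.WW z := Uni.WW_pos z
  have hW0' : (0:ℝ) < Uni.WW z := by exact_mod_cast hW0
  have hsz : ∀ b, (((Icc 1 N).filter (fun n => n ≡ b [MOD Uni.WW z])).card : ℝ) ≤ (1 + δ) * (N / Uni.WW z) := by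
    intro b
    refine (card_class hW0 N b).trans ?_
    have : (1:ℝ) ≤ δ * N / Uni.WW z := by
      rw [le_div_iff₀ hW0', one_mul]; exact hP.hWN
    calc (N : ℝ) / Uni.WW z + 1 ≤ N / Uni.WW z + δ * N / Uni.WW z := by gcongr
      _ = _ := by ring
  have h1 : ∑ b ∈ gc z v, (((Icc 1 N).filter (fun n => n ≡ b [MOD Uni.WW z])).card : ℝ) ≤
      (1 + δ) * (N / Uni.WW z) * (gc z v).card := by
    rw [mul_comm, ← nsmul_eq_mul, ← sum_const]
    apply sum_le_sum
    intro b _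
    exact hsz b
  refine le_trans ?_ h1
  calc ∑ n ∈ Rn q V (Icc 1 N), ∏ i, cpf z n (v i) ≤ ∑ n ∈ Icc 1 N, ∏ i, cpf z n (v i) := by
        apply sum_le_sum_of_subset_of_nonneg (filter_subset _ _)
        intro n _ _
        exact prod_nonneg fun i _ => cpf_nonneg _ _ _
    _ ≤ ∑ n ∈ Icc 1 N, ∑ b ∈ gc z v, (if n ≡ b [MOD Uni.WW z] then (1:ℝ) else 0) := by
        apply sum_le_sum
        intro n _
        rw [prod_cpf]
        split_ifs with h
        · have h2 : n % Uni.WW z ∈ gc z v := by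
            unfold gc
            rw [mem_filter, mem_range]
            exact ⟨Nat.mod_lt _ hW0, fun i => Fr_mod (Nat.mod_modEq n _).symm (h i)⟩
          calc (1:ℝ) = if n ≡ n % Uni.WW z [MOD Uni.WW z] then (1:ℝ) else 0 := by
                rw [if_pos (Nat.mod_modEq n _).symm]
            _ ≤ _ := single_le_sum (f := fun b => if n ≡ b [MOD Uni.WW z] then (1:ℝ) else 0)
                (fun b _ => by split_ifs <;> norm_num) h2
        · apply sum_nonneg
          intro b _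
          split_ifs <;> norm_num
    _ = _ := by
        rw [sum_comm]
        apply sum_congr rfl
        intro b _
        rw [← sum_filter, sum_const, nsmul_eq_mul, mul_one]

/-- the constant -/
noncomputable def c2 (k : ℕ) (δ : ℝ) : ℝ := (1 - δ) ^ (k + 1) / (1 + δ) ^ k

/-- the lower bound for the whole sum -/
theorem total_lower {ι X Y : Type*} [Fintype ι] (hcard : Fintype.card ι = k + 1) (XS : Finset X)
    (ev : X → ι → Y) (hH : HolG XS ev) (Lf : Y → ℤ × ℤ) (hP : Pr k δ q N z H) (hδ : 0 < δ) (hδ1 : δ ≤ 1)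
    (hq : 1 ≤ q) {V : Finset (ℤ × ℤ)} (hV : ∀ f ∈ V, OK H f) (hv : ∀ x ∈ XS, ∀ i, Lf (ev x i) ∈ V) :
    c2 k δ * (N / Real.log N ^ (k + 1)) *
      (((Uni.WW z : ℝ) / Nat.totient (Uni.WW z)) ^ (k + 1) *
        ((∑ x ∈ XS, ((gc z (fun i => Lf (ev x i))).card : ℝ)) / Uni.WW z)) ≤
      ∑ n ∈ Rn q V (Icc 1 N), Frm XS ev (fun _ y => prf n (Lf y)) := by
  classical
  obtain ⟨i₀⟩ : Nonempty ι := Fintype.card_pos_iff.1 (by omega)
  have hWp : 0 < Uni.WW z := Uni.WW_pos z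
  have hW0 : (0:ℝ) < Uni.WW z := by exact_mod_cast hWp
  have hφ0 : (0:ℝ) < Nat.totient (Uni.WW z) := by exact_mod_cast Nat.totient_pos.2 hWp
  obtain ⟨G, hG⟩ : ∃ G : ℝ, G = ∑ x ∈ XS, ((gc z (fun i => Lf (ev x i))).card : ℝ) := ⟨_, rfl⟩
  have hG0 : 0 ≤ G := by rw [hG]; exact sum_nonneg fun _ _ => Nat.cast_nonneg _
  rw [← hG]
  have hL : 0 < Real.log N := by linarith [hP.hL]
  have hN0 : (0:ℝ) ≤ N := Nat.cast_nonneg N
  obtain ⟨R, hR⟩ : ∃ R, R = Rn q V (Icc 1 N) := ⟨_, rfl⟩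
  rw [← hR]
  have hN1 : 0 < (N:ℝ) := by
    rcases hN0.lt_or_eq with h | h
    · exact h
    · exfalso
      rw [← h, Real.log_zero] at hL
      exact lt_irrefl _ hL
  obtain ⟨P, hPd⟩ : ∃ P : ℝ, P = ∑ n ∈ R, Frm XS ev (fun _ y => prf n (Lf y)) := ⟨_, rfl⟩
  obtain ⟨Q, hQd⟩ : ∃ Q : ℝ, Q = ∑ n ∈ R, Frm XS ev (fun _ y => cpf z n (Lf y)) := ⟨_, rfl⟩
  have hP0 : 0 ≤ P := by rw [hPd]; exact sum_nonneg fun n _ => Frm_nonneg _ _ _ fun _ _ => prf_nonneg _ _
  have hQ0 : 0 ≤ Q := by rw [hQd]; exact sum_nonneg fun n _ => Frm_nonneg _ _ _ fun _ _ => cpf_nonneg _ _ _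
  rw [← hPd]
  -- the mixed form
  have m1 : (1 - δ) * (N / (Nat.totient (Uni.WW z) * Real.log N)) * G ≤
      ∑ n ∈ R, Frm XS ev (fun i y => if i = i₀ then prf n (Lf y) else cpf z n (Lf y)) := by
    unfold Frm
    rw [sum_comm, hG, mul_sum, hR]
    apply sum_le_sum
    intro x hx
    exact mixed_lower hP hq hV (fun i => Lf (ev x i)) (hv x hx) i₀
  have m2 : Q ≤ (1 + δ) * (N / Uni.WW z) * G := by
    rw [hQd]
    unfold Frm
    rw [sum_comm, hG, mul_sum, hR]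
    apply sum_le_sum
    intro x hx
    exact free_upper hP V (fun i => Lf (ev x i))
  have h1 := HolG_sum R XS ev hH (fun i n y => if i = i₀ then prf n (Lf y) else cpf z n (Lf y)) (by
    intro i n y
    split_ifs
    · exact prf_nonneg _ _
    · exact cpf_nonneg _ _ _)
  have h2 : ∏ i, ∑ n ∈ R, Frm XS ev (fun _ y => if i = i₀ then prf n (Lf y) else cpf z n (Lf y)) = P * Q ^ k := by
    rw [← mul_prod_erase univ _ (mem_univ i₀)]
    congr 1
    · rw [hPd]
      apply sum_congr rfl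
      intro n _
      simp only [if_true]
    · have : ∀ i ∈ univ.erase i₀, ∑ n ∈ R, Frm XS ev (fun _ y => if i = i₀ then prf n (Lf y) else cpf z n (Lf y)) = Q := by
        intro i hi
        rw [hQd]
        simp only [if_neg (ne_of_mem_erase hi)]
      rw [prod_congr rfl this, prod_const, card_erase_of_mem (mem_univ _), card_univ, hcard]
      congr 1
  rw [h2, hcard] at h1
  have hu0 : 0 ≤ (1 - δ) * (N / (Nat.totient (Uni.WW z) * Real.log N)) * G := by
    have h12 : 0 ≤ 1 - δ := by linarith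
    exact mul_nonneg (mul_nonneg h12 (div_nonneg hN0 (mul_nonneg hφ0.le hL.le))) hG0
  have h3 : ((1 - δ) * (N / (Nat.totient (Uni.WW z) * Real.log N)) * G) ^ (k + 1) ≤
      P * ((1 + δ) * (N / Uni.WW z) * G) ^ k :=
    (pow_le_pow_left₀ hu0 m1 _).trans (h1.trans (mul_le_mul_of_nonneg_left (pow_le_pow_left₀ hQ0 m2 _) hP0))
  rcases hG0.lt_or_eq with hGp | hGz
  · have hden : 0 < ((1 + δ) * (N / Uni.WW z) * G) ^ k := by positivity
    rw [← div_le_iff₀ hden] at h3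
    refine le_trans (le_of_eq ?_) h3
    unfold c2
    rw [eq_div_iff hden.ne']
    have hδ' : (1 + δ) ≠ 0 := by linarith
    simp only [mul_pow, div_pow, pow_succ]
    field_simp
  · rw [← hGz]
    simp only [zero_div, mul_zero]
    exact hP0

/-- a single form is free of small primes in at least `φ(W)` classes -/
lemma single_free {f : ℤ × ℤ} (hf : IsCoprime f.1 f.2) (z : ℕ) :
    ((Nat.totient (Uni.WW z) : ℕ) : ℝ) ≤ ∑ n ∈ range (Uni.WW z), cpf z n f := by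
  classical
  have h := sum_sv z {f} (by intro g hg; rw [mem_singleton] at hg; rw [hg]; exact hf)
  rw [card_singleton, Nat.cast_one, one_mul] at h
  refine h.trans (sum_le_sum fun n _ => ?_)
  unfold sv cpf Fr
  rw [filter_singleton]
  split_ifs <;> simp

/-- lower bound for the sum of the local densities -/
theorem good_lower {ι X Y : Type*} [Fintype ι] (hcard : Fintype.card ι = k + 1) (XS : Finset X)
    (ev : X → ι → Y) (hH : HolG XS ev) (Lf : Y → ℤ × ℤ) (hP : Pr k δ q N z H) (hδ : 0 < δ)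
    (hq : 1 ≤ q) {V : Finset (ℤ × ℤ)} (hV : ∀ f ∈ V, OK H f) (hv : ∀ x ∈ XS, ∀ i, Lf (ev x i) ∈ V) :
    (XS.card : ℝ) * ((1 / dn q V) / (1 + δ)) ^ k ≤
      ((Uni.WW z : ℝ) / Nat.totient (Uni.WW z)) ^ (k + 1) *
        ((∑ x ∈ XS, ((gc z (fun i => Lf (ev x i))).card : ℝ)) / Uni.WW z) := by
  classical
  obtain ⟨i₀⟩ : Nonempty ι := Fintype.card_pos_iff.1 (by omega)
  have hWp : 0 < Uni.WW z := Uni.WW_pos z
  have hW0 : (0:ℝ) < Uni.WW z := by exact_mod_cast hWp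
  have hφ0 : (0:ℝ) < Nat.totient (Uni.WW z) := by exact_mod_cast Nat.totient_pos.2 hWp
  obtain ⟨G, hG⟩ : ∃ G : ℝ, G = ∑ x ∈ XS, ((gc z (fun i => Lf (ev x i))).card : ℝ) := ⟨_, rfl⟩
  have hG0 : 0 ≤ G := by rw [hG]; exact sum_nonneg fun _ _ => Nat.cast_nonneg _
  rw [← hG]
  obtain ⟨R, hR⟩ : ∃ R, R = Rn q V (range (Uni.WW z)) := ⟨_, rfl⟩
  have hRsub : R ⊆ range (Uni.WW z) := by rw [hR]; exact filter_subset _ _
  have hRmem : ∀ x ∈ XS, ∀ i, ∀ b ∈ range (Uni.WW z), b ∉ R → cpf z b (Lf (ev x i)) = 0 := by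
    intro x hx i b hb hb'
    unfold cpf
    rw [if_neg]
    intro h
    apply hb'
    rw [hR]
    exact mem_filter.2 ⟨hb, Fr_q hq hP.hqz (hv x hx i) h⟩
  have m1 : (XS.card : ℝ) * Nat.totient (Uni.WW z) ≤
      ∑ n ∈ R, Frm XS ev (fun i y => if i = i₀ then cpf z n (Lf y) else 1) := by
    unfold Frm
    rw [sum_comm, ← nsmul_eq_mul, ← sum_const]
    apply sum_le_sum
    intro x hx
    have e1 : ∀ n, ∏ i, (if i = i₀ then cpf z n (Lf (ev x i)) else 1) = cpf z n (Lf (ev x i₀)) := by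
      intro n
      rw [← mul_prod_erase univ _ (mem_univ i₀), if_pos rfl, prod_eq_one, mul_one]
      intro i hi
      rw [if_neg (ne_of_mem_erase hi)]
    simp_rw [e1]
    refine (single_free (hV _ (hv x hx i₀)).2.1 z).trans (le_of_eq ?_)
    exact (sum_subset hRsub fun b hb hb' => hRmem x hx i₀ b hb hb').symm
  have m2 : ∑ n ∈ R, Frm XS ev (fun (_ : ι) (_ : Y) => (1:ℝ)) = R.card * XS.card := by
    unfold Frm
    simp
  have m3 : ∑ n ∈ R, Frm XS ev (fun _ y => cpf z n (Lf y)) = G := by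
    unfold Frm
    rw [sum_comm, hG]
    apply sum_congr rfl
    intro x hx
    have e1 : ∑ n ∈ R, ∏ i, cpf z n (Lf (ev x i)) = ∑ n ∈ range (Uni.WW z), ∏ i, cpf z n (Lf (ev x i)) := by
      apply sum_subset hRsub
      intro b hb hb'
      exact prod_eq_zero (mem_univ i₀) (hRmem x hx i₀ b hb hb')
    rw [e1]
    simp_rw [prod_cpf]
    rw [← sum_filter, sum_const, nsmul_eq_mul, mul_one]
    rfl
  have h1 := HolG_sum R XS ev hH (fun i n y => if i = i₀ then cpf z n (Lf y) else 1) (by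
    intro i n y
    split_ifs
    · exact cpf_nonneg _ _ _
    · norm_num)
  have h2 : ∏ i, ∑ n ∈ R, Frm XS ev (fun _ y => if i = i₀ then cpf z n (Lf y) else 1) =
      G * (R.card * XS.card : ℝ) ^ k := by
    rw [← mul_prod_erase univ _ (mem_univ i₀)]
    congr 1
    · rw [← m3]
      apply sum_congr rfl
      intro n _
      simp only [if_true]
    · have : ∀ i ∈ univ.erase i₀, ∑ n ∈ R, Frm XS ev (fun _ y => if i = i₀ then cpf z n (Lf y) else 1) =
          (R.card * XS.card : ℝ) := by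
        intro i hi
        rw [← m2]
        simp only [if_neg (ne_of_mem_erase hi)]
      rw [prod_congr rfl this, prod_const, card_erase_of_mem (mem_univ _), card_univ, hcard]
      congr 1
  rw [h2, hcard] at h1
  have hRc : (R.card : ℝ) ≤ (1 + δ) * dn q V * Uni.WW z := by rw [hR]; exact card_Rn_le' hP hq V
  rcases (Nat.cast_nonneg XS.card : (0:ℝ) ≤ XS.card).lt_or_eq with hXp | hXz
  · have h0 : ((XS.card : ℝ) * Nat.totient (Uni.WW z)) ^ (k + 1) ≤ G * ((R.card : ℝ) * XS.card) ^ k :=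
      (pow_le_pow_left₀ (by positivity) m1 _).trans h1
    have hRpos : (0:ℝ) < (R.card : ℝ) := by
      have hXne : XS.Nonempty := by
        rw [← card_pos]; exact_mod_cast hXp
      obtain ⟨x, hx⟩ := hXne
      have h5 := single_free (hV _ (hv x hx i₀)).2.1 z
      rw [← sum_subset hRsub fun b hb hb' => hRmem x hx i₀ b hb hb'] at h5
      by_contra hc
      have h6 : R.card = 0 := by
        have : (R.card : ℝ) ≤ 0 := not_lt.1 hc
        exact_mod_cast le_antisymm this (Nat.cast_nonneg _)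
      rw [card_eq_zero] at h6
      rw [h6, sum_empty] at h5
      linarith
    have hD0 : 0 < (1 + δ) * dn q V := by
      by_contra hc
      have : (1 + δ) * dn q V * Uni.WW z ≤ 0 := mul_nonpos_of_nonpos_of_nonneg (not_lt.1 hc) hW0.le
      linarith
    obtain ⟨D, hD⟩ : ∃ D : ℝ, D = (1 + δ) * dn q V := ⟨_, rfl⟩
    rw [← hD] at hRc hD0
    have h3 : ((XS.card : ℝ) * Nat.totient (Uni.WW z)) ^ (k + 1) ≤ G * (D * Uni.WW z * XS.card) ^ k := by
      refine h0.trans (mul_le_mul_of_nonneg_left ?_ hG0)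
      apply pow_le_pow_left₀ (by positivity)
      exact mul_le_mul_of_nonneg_right hRc hXp.le
    have hden : 0 < (D * Uni.WW z * XS.card) ^ k := by positivity
    rw [← div_le_iff₀ hden] at h3
    have h4 : ((Uni.WW z:ℝ) / Nat.totient (Uni.WW z)) ^ (k + 1) * ((((XS.card : ℝ) * Nat.totient (Uni.WW z)) ^ (k + 1) /
        (D * Uni.WW z * XS.card) ^ k) / Uni.WW z) ≤
        ((Uni.WW z:ℝ) / Nat.totient (Uni.WW z)) ^ (k + 1) * (G / Uni.WW z) := by
      apply mul_le_mul_of_nonneg_left _ (by positivity)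
      exact div_le_div_of_nonneg_right h3 hW0.le
    refine le_trans (le_of_eq ?_) h4
    have hδ' : (0:ℝ) < 1 + δ := by linarith
    have e0 : (1 / dn q V) / (1 + δ) = 1 / D := by
      rw [hD, div_div, mul_comm (dn q V)]
    rw [e0]
    have e1 : ((Uni.WW z:ℝ) / Nat.totient (Uni.WW z)) ^ (k + 1) * ((XS.card : ℝ) * Nat.totient (Uni.WW z)) ^ (k + 1) =
        ((Uni.WW z:ℝ) * XS.card) ^ k * (Uni.WW z * XS.card) := by
      rw [← mul_pow, ← pow_succ]
      congr 1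
      field_simp
    have e2 : (D * Uni.WW z * (XS.card : ℝ)) ^ k = D ^ k * ((Uni.WW z:ℝ) * XS.card) ^ k := by
      rw [mul_assoc, mul_pow]
    have hp : 0 < ((Uni.WW z:ℝ) * XS.card) ^ k := by positivity
    have hd : 0 < D ^ k := by positivity
    calc (XS.card : ℝ) * (1 / D) ^ k
        = (((Uni.WW z:ℝ) * XS.card) ^ k * (Uni.WW z * XS.card)) / (D ^ k * ((Uni.WW z:ℝ) * XS.card) ^ k) / Uni.WW z := by
          rw [one_div, inv_pow]
          field_simp
      _ = (((Uni.WW z:ℝ) / Nat.totient (Uni.WW z)) ^ (k + 1) * ((XS.card : ℝ) * Nat.totient (Uni.WW z)) ^ (k + 1)) /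
            (D * Uni.WW z * (XS.card : ℝ)) ^ k / Uni.WW z := by rw [e1, e2]
      _ = _ := by ring
  · rw [← hXz, zero_mul]
    positivity

end Pool.Agent.TH891.AL
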