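import Mathlib
import Pool.Agent.TH891.AL.L3

set_option autoImplicit false

/-! Parameters, helper891. -/

namespace Pool.Agent.TH891.AL

open Finset Filter Topology Pool.Agent.H387R2 Pool.Agent.H362R2.R1

lemma WW_small (c z0 : ℕ) : ∀ᶠ N : ℕ in atTop,
    (Uni.WW (z0 + ⌈Real.log (2 * (Real.log N ^ c) ^ 2)⌉₊) : ℝ) ≤ Real.log N ^ (4 * c + 1) := by
  have tL : Tendsto (fun N : ℕ => Real.log (N : ℝ)) atTop atTop :=
    Real.tendsto_log_atTop.comp tendsto_natCast_atTop_atTop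
  filter_upwards [tL.eventually_ge_atTop (4 ^ z0 * 16), tL.eventually_ge_atTop 1] with N h1 h2
  obtain ⟨H, hH⟩ : ∃ H : ℝ, H = Real.log N ^ c := ⟨_, rfl⟩
  have hH1 : 1 ≤ H := by rw [hH]; exact one_le_pow₀ h2
  obtain ⟨x, hx⟩ : ∃ x : ℝ, x = Real.log (2 * H ^ 2) := ⟨_, rfl⟩
  rw [← hH, ← hx]
  have hx0 : 0 ≤ x := by
    rw [hx]
    apply Real.log_nonneg
    nlinarith
  have hl4 : Real.log 4 ≤ 2 := by
    have : (4:ℝ) = 2 ^ 2 := by norm_num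
    rw [this, Real.log_pow]
    have := Real.log_two_lt_d9
    push_cast
    linarith
  have hl40 : 0 ≤ Real.log 4 := Real.log_nonneg (by norm_num)
  have e1 : (4:ℝ) ^ ⌈x⌉₊ ≤ 16 * H ^ 4 := by
    have h3 : (4:ℝ) ^ ⌈x⌉₊ = Real.exp (⌈x⌉₊ * Real.log 4) := by
      rw [mul_comm, Real.exp_mul, Real.exp_log (by norm_num), Real.rpow_natCast]
    rw [h3]
    have h4 : (⌈x⌉₊ : ℝ) ≤ x + 1 := (Nat.ceil_lt_add_one hx0).le
    calc Real.exp (⌈x⌉₊ * Real.log 4) ≤ Real.exp (2 * x + Real.log 4) := by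
          apply Real.exp_le_exp.2
          calc (⌈x⌉₊ : ℝ) * Real.log 4 ≤ (x + 1) * Real.log 4 := mul_le_mul_of_nonneg_right h4 hl40
            _ ≤ 2 * x + Real.log 4 := by nlinarith
      _ = Real.exp x ^ 2 * 4 := by
          rw [Real.exp_add, Real.exp_log (by norm_num), ← Real.exp_nat_mul]
          push_cast
          rfl
      _ = 16 * H ^ 4 := by
          rw [hx, Real.exp_log (by positivity)]
          ring
  calc (Uni.WW (z0 + ⌈x⌉₊) : ℝ) ≤ ((4 ^ (z0 + ⌈x⌉₊) : ℕ) : ℝ) := Nat.cast_le.2 (Uni.WW_le _)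
    _ = 4 ^ z0 * 4 ^ ⌈x⌉₊ := by push_cast; rw [pow_add]
    _ ≤ 4 ^ z0 * (16 * H ^ 4) := mul_le_mul_of_nonneg_left e1 (by positivity)
    _ = (4 ^ z0 * 16) * H ^ 4 := by ring
    _ ≤ Real.log N * H ^ 4 := mul_le_mul_of_nonneg_right h1 (by positivity)
    _ = _ := by rw [hH, ← pow_mul, pow_succ, mul_comm c 4, mul_comm]

theorem Pr_eventually (k c q : ℕ) {δ : ℝ} (hδ : 0 < δ) (hδ1 : δ ≤ 1) :
    ∀ᶠ N : ℕ in atTop, ∃ z, Pr k δ q N z (Real.log N ^ c) := by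
  obtain ⟨z1, hz1⟩ := BH_bounds (k + 1) δ hδ
  obtain ⟨z0, hz0⟩ : ∃ z0 : ℕ, z0 = z1 + q + 2 + ⌈2 * q / δ⌉₊ := ⟨_, rfl⟩
  have tN : Tendsto (fun N : ℕ => (N : ℝ)) atTop atTop := tendsto_natCast_atTop_atTop
  have tL : Tendsto (fun N : ℕ => Real.log (N : ℝ)) atTop atTop := Real.tendsto_log_atTop.comp tN
  filter_upwards [WW_small c z0, class_prime c (4 * c + 1) hδ hδ1, tL.eventually_ge_atTop 1,
    tN.eventually (Uni.log_pow_small ((4 * c + 1 : ℕ) : ℝ) hδ)] with N h1 h2 h3 h4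
  obtain ⟨z, hz⟩ : ∃ z, z = z0 + ⌈Real.log (2 * (Real.log N ^ c) ^ 2)⌉₊ := ⟨_, rfl⟩
  rw [← hz] at h1
  rw [Real.rpow_natCast] at h4
  have hH1 : 1 ≤ Real.log N ^ c := one_le_pow₀ h3
  have hzr : (2 * q / δ : ℝ) ≤ z := by
    refine (Nat.le_ceil _).trans ?_
    apply Nat.cast_le.2
    omega
  refine ⟨z, h3, h1.trans h4, by omega, ?_, ?_, ?_⟩
  · have h5 : z ≤ 2 * Uni.WW z := Uni.le_WW (by omega)
    have h6 : (z : ℝ) ≤ 2 * Uni.WW z := by exact_mod_cast h5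
    rw [div_le_iff₀ hδ] at hzr
    nlinarith
  · intro f hf b hb
    exact h2 (Uni.WW z) (Uni.WW_pos z) h1 f hf.1 hf.2.2.1 hf.2.2.2 hf.2.1 b hb
  · intro T hT hTf
    have h5 := (hz1 z (by omega) (Real.log N ^ c) hH1 (by
      refine (Nat.le_ceil _).trans ?_
      apply Nat.cast_le.2
      omega) T hT (fun f hf => (hTf f hf).1) (fun f hf => (hTf f hf).2.1) (fun f hf => (hTf f hf).2.2)).2
    unfold Ez at h5
    rw [Ez_eq, hT] at h5
    refine h5.trans (le_of_eq ?_)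
    unfold MB.rho
    rw [one_div_div]
    ring

end Pool.Agent.TH891.AL
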