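import Mathlib
import Pool.Agent.TH891.AL.L4

set_option autoImplicit false

/-! The sharp lower bound for sets of linear polynomials, helper891. -/

namespace Pool.Agent.TH891.AL

open Finset Filter Topology Pool.Agent.H387R2 Pool.Agent.H362R2.R1

/-- double counting of `r`-subsets -/
lemma sum_choose {ι α : Type*} (S : Finset ι) (A : Finset α) (r : ℕ) (Q : ι → α → Prop)
    [∀ n a, Decidable (Q n a)] :
    ∑ n ∈ S, ((A.filter (Q n)).card).choose r =
      ∑ T ∈ A.powersetCard r, (S.filter (fun n => ∀ t ∈ T, Q n t)).card := by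
  classical
  have h1 : ∀ n ∈ S, ((A.filter (Q n)).card).choose r =
      ∑ T ∈ A.powersetCard r, if (∀ t ∈ T, Q n t) then 1 else 0 := by
    intro n _
    rw [← card_powersetCard, ← card_filter]
    congr 1
    ext T
    simp only [mem_powersetCard, mem_filter, subset_iff]
    constructor
    · rintro ⟨h, h'⟩
      exact ⟨⟨fun t ht => (h ht).1, h'⟩, fun t ht => (h ht).2⟩
    · rintro ⟨⟨h, h'⟩, h2⟩
      exact ⟨fun t ht => ⟨h ht, h2 t ht⟩, h'⟩
  rw [sum_congr rfl h1, sum_comm]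
  apply sum_congr rfl
  intro T _
  rw [card_filter]

/-- number of forms with prime value at `n` -/
def XV (V : Finset (ℤ × ℤ)) (n : ℕ) : ℕ := (V.filter (fun f => (f.1 * (n : ℤ) + f.2).natAbs.Prime)).card

/-- number of `n ≤ N` at which all forms of `T` have prime values -/
def PN (T : Finset (ℤ × ℤ)) (N : ℕ) : ℕ :=
  ((Icc 1 N).filter (fun n : ℕ => ∀ f ∈ T, (f.1 * (n : ℤ) + f.2).natAbs.Prime)).card

lemma sum_descV (V : Finset (ℤ × ℤ)) (k N : ℕ) :
    ∑ n ∈ Icc 1 N, (XV V n).descFactorial (k + 1) =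
      (k + 1).factorial * ∑ T ∈ V.powersetCard (k + 1), PN T N := by
  have h := sum_choose (Icc 1 N) V (k + 1) (fun n f => (f.1 * (n : ℤ) + f.2).natAbs.Prime)
  unfold PN
  rw [← h, mul_sum]
  apply sum_congr rfl
  intro n _
  rw [Nat.descFactorial_eq_factorial_mul_choose]
  rfl

lemma sum_desc_gz (V : Finset (ℤ × ℤ)) (k z : ℕ) :
    ∑ b ∈ range (Uni.WW z), (sv z V b).card.descFactorial (k + 1) =
      (k + 1).factorial * ∑ T ∈ V.powersetCard (k + 1), gz z T := by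
  classical
  have h := sum_pset z (k + 1) V (fun _ => True)
  simp only [filter_true, card_powersetCard] at h
  rw [← h, mul_sum]
  apply sum_congr rfl
  intro n _
  rw [Nat.descFactorial_eq_factorial_mul_choose]

variable {k : ℕ} {δ : ℝ} {q N z : ℕ} {H : ℝ}

/-- the constant -/
noncomputable def c1 (δ : ℝ) : ℝ := (1 - δ) / (1 + δ)

/-- the average in the class of `b` -/
noncomputable def yb (δ : ℝ) (N z : ℕ) (V : Finset (ℤ × ℤ)) (b : ℕ) : ℝ :=
  c1 δ * (sv z V b).card * (Uni.WW z / (Nat.totient (Uni.WW z) * Real.log N))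

lemma yb_nonneg (hδ : 0 < δ) (hδ1 : δ ≤ 1 / 2) (hL : 1 ≤ Real.log N) (V : Finset (ℤ × ℤ)) (b : ℕ) :
    0 ≤ yb δ N z V b := by
  unfold yb c1
  have : 0 ≤ (1 - δ) / (1 + δ) := div_nonneg (by linarith) (by linarith)
  have : 0 ≤ Real.log N := by linarith
  positivity

lemma sv_Fr {V : Finset (ℤ × ℤ)} {b : ℕ} {f : ℤ × ℤ} (hf : f ∈ sv z V b) : f ∈ V ∧ Fr z f b := by
  unfold sv at hf
  exact ⟨(mem_filter.1 hf).1, (mem_filter.1 hf).2⟩

lemma class_mean (hP : Pr k δ q N z H) (hδ : 0 < δ) (hδ1 : δ ≤ 1 / 2) {V : Finset (ℤ × ℤ)}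
    (hV : ∀ f ∈ V, OK H f) (b : ℕ) :
    yb δ N z V b * ((Icc 1 N).filter (fun n => n ≡ b [MOD Uni.WW z])).card ≤
      ∑ n ∈ (Icc 1 N).filter (fun n => n ≡ b [MOD Uni.WW z]), (XV V n : ℝ) := by
  classical
  obtain ⟨S, hS⟩ : ∃ S, S = (Icc 1 N).filter (fun n => n ≡ b [MOD Uni.WW z]) := ⟨_, rfl⟩
  rw [← hS]
  have hW : 0 < Uni.WW z := Uni.WW_pos z
  have hW0 : (0:ℝ) < Uni.WW z := by exact_mod_cast hW
  have hL : 0 < Real.log N := by linarith [hP.hL]
  have hφ0 : (0:ℝ) < Nat.totient (Uni.WW z) := by exact_mod_cast Nat.totient_pos.2 hW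
  have h1 : ∑ n ∈ S, (XV V n : ℝ) = ∑ f ∈ V, ((S.filter (fun n : ℕ => (f.1 * (n : ℤ) + f.2).natAbs.Prime)).card : ℝ) := by
    unfold XV
    simp_rw [card_filter]
    push_cast
    rw [sum_comm]
  have h2 : ∀ f ∈ sv z V b, (1 - δ) * (N / (Nat.totient (Uni.WW z) * Real.log N)) ≤
      ((S.filter (fun n : ℕ => (f.1 * (n : ℤ) + f.2).natAbs.Prime)).card : ℝ) := by
    intro f hf
    obtain ⟨hf1, hf2⟩ := sv_Fr hf
    have := hP.cls f (hV f hf1) b hf2.copW
    rw [hS, filter_filter]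
    exact this
  have h3 : ((sv z V b).card : ℝ) * ((1 - δ) * (N / (Nat.totient (Uni.WW z) * Real.log N))) ≤
      ∑ n ∈ S, (XV V n : ℝ) := by
    rw [h1]
    calc ((sv z V b).card : ℝ) * ((1 - δ) * (N / (Nat.totient (Uni.WW z) * Real.log N)))
        = ∑ _a ∈ sv z V b, (1 - δ) * (N / (Nat.totient (Uni.WW z) * Real.log N)) := by
          rw [sum_const, nsmul_eq_mul]
      _ ≤ ∑ f ∈ sv z V b, ((S.filter (fun n : ℕ => (f.1 * (n : ℤ) + f.2).natAbs.Prime)).card : ℝ) := sum_le_sum h2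
      _ ≤ _ := sum_le_sum_of_subset_of_nonneg (filter_subset _ _) fun _ _ _ => Nat.cast_nonneg _
  refine le_trans ?_ h3
  have h4 : (S.card : ℝ) ≤ (1 + δ) * (N / Uni.WW z) := by
    rw [hS]
    refine (card_class hW N b).trans ?_
    have : (1:ℝ) ≤ δ * N / Uni.WW z := by
      rw [le_div_iff₀ hW0, one_mul]; exact hP.hWN
    calc (N : ℝ) / Uni.WW z + 1 ≤ N / Uni.WW z + δ * N / Uni.WW z := by gcongr
      _ = _ := by ring
  refine (mul_le_mul_of_nonneg_left h4 (yb_nonneg hδ hδ1 hP.hL _ _)).trans (le_of_eq ?_)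
  unfold yb c1
  have : 1 + δ ≠ 0 := by linarith
  field_simp

/-- the heart of the argument -/
theorem heart (hP : Pr k δ q N z H) (hδ : 0 < δ) (hδ1 : δ ≤ 1 / 2) {lam : ℝ} (hlam : 0 < lam)
    (hq : 1 ≤ q) {V : Finset (ℤ × ℤ)} (hV : ∀ f ∈ V, OK H f)
    (hcard : lam * dn q V * Real.log N ≤ V.card) :
    (1 - δ) * (N / Uni.WW z) * (Uni.ph k (1 / (c1 δ * lam / (1 + δ))) *
      ((c1 δ * (Uni.WW z / (Nat.totient (Uni.WW z) * Real.log N))) ^ (k + 1) *
      ∑ T ∈ V.powersetCard (k + 1), (gz z T : ℝ))) ≤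
      ∑ T ∈ V.powersetCard (k + 1), (PN T N : ℝ) := by
  classical
  have hW : 0 < Uni.WW z := Uni.WW_pos z
  have hW0 : (0:ℝ) < Uni.WW z := by exact_mod_cast hW
  have hL : 0 < Real.log N := by linarith [hP.hL]
  have hφ0 : (0:ℝ) < Nat.totient (Uni.WW z) := by exact_mod_cast Nat.totient_pos.2 hW
  have hc1 : 0 < c1 δ := div_pos (by linarith) (by linarith)
  have hq0 : (0:ℝ) < q := by exact_mod_cast hq
  obtain ⟨μ, hμ⟩ : ∃ μ, μ = c1 δ * lam / (1 + δ) := ⟨_, rfl⟩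
  rw [← hμ]
  have hμ0 : 0 < μ := by rw [hμ]; exact div_pos (mul_pos hc1 hlam) (by linarith)
  obtain ⟨Y, hY⟩ : ∃ Y, Y = yb δ N z V := ⟨_, rfl⟩
  have hY0 : ∀ b, 0 ≤ Y b := by rw [hY]; exact yb_nonneg hδ hδ1 hP.hL V
  obtain ⟨gd, hgdd⟩ : ∃ gd, gd = Rn q V (range (Uni.WW z)) := ⟨_, rfl⟩
  -- outside the good classes nothing
  have hz : ∀ b ∈ range (Uni.WW z), b ∉ gd → sv z V b = ∅ := by
    intro b hb hb'
    rw [eq_empty_iff_forall_notMem]
    intro f hf
    apply hb'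
    rw [hgdd]
    exact mem_filter.2 ⟨hb, Fr_q hq hP.hqz (sv_Fr hf).1 (sv_Fr hf).2⟩
  have hgd : gd ⊆ range (Uni.WW z) := by rw [hgdd]; exact filter_subset _ _
  have hyz : ∀ b ∈ range (Uni.WW z), b ∉ gd → Y b = 0 := by
    intro b hb hb'
    rw [hY]; unfold yb; rw [hz b hb hb']; simp
  -- step 1 : sum over classes
  have s1 : ∑ b ∈ range (Uni.WW z), ∑ n ∈ (Icc 1 N).filter (fun n => n ≡ b [MOD Uni.WW z]),
      ((XV V n).descFactorial (k + 1) : ℝ) = ∑ n ∈ Icc 1 N, ((XV V n).descFactorial (k + 1) : ℝ) := by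
    rw [← sum_fiberwise_of_maps_to (s := Icc 1 N) (t := range (Uni.WW z)) (g := fun n => n % Uni.WW z)
      (fun n _ => mem_range.2 (Nat.mod_lt _ hW))]
    apply sum_congr rfl
    intro b hb
    apply sum_congr _ fun _ _ => rfl
    apply filter_congr
    intro n _
    rw [Nat.ModEq, Nat.mod_eq_of_lt (mem_range.1 hb)]
  have hsl : ∀ b, (1 - δ) * (N / Uni.WW z) ≤ (((Icc 1 N).filter (fun n => n ≡ b [MOD Uni.WW z])).card : ℝ) := by
    intro b
    refine le_trans ?_ (card_class' hW N b)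
    have : (1:ℝ) ≤ δ * N / Uni.WW z := by
      rw [le_div_iff₀ hW0, one_mul]; exact hP.hWN
    calc (1 - δ) * (N / Uni.WW z) = N / Uni.WW z - δ * N / Uni.WW z := by ring
      _ ≤ _ := by linarith
  have s2 : ∀ b ∈ range (Uni.WW z), (1 - δ) * (N / Uni.WW z) * Uni.GG k (Y b) ≤
      ∑ n ∈ (Icc 1 N).filter (fun n => n ≡ b [MOD Uni.WW z]), ((XV V n).descFactorial (k + 1) : ℝ) := by
    intro b _
    have h1 := Uni.jensen_desc _ (XV V) k (hY0 b) (by rw [hY]; exact class_mean hP hδ hδ1 hV b)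
    refine le_trans ?_ h1
    exact mul_le_mul_of_nonneg_right (hsl b) (Uni.GG_nonneg k (hY0 b))
  have s3 : (1 - δ) * (N / Uni.WW z) * ∑ b ∈ gd, Uni.GG k (Y b) ≤
      ((k + 1).factorial : ℝ) * ∑ T ∈ V.powersetCard (k + 1), (PN T N : ℝ) := by
    have h1 := sum_descV V k N
    have h2 : ∑ n ∈ Icc 1 N, ((XV V n).descFactorial (k + 1) : ℝ) =
      ((k + 1).factorial : ℝ) * ∑ T ∈ V.powersetCard (k + 1), (PN T N : ℝ) := by exact_mod_cast h1
    rw [← h2, ← s1, mul_sum]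
    refine (sum_le_sum fun b hb => s2 b (hgd hb)).trans ?_
    exact sum_le_sum_of_subset_of_nonneg hgd fun b _ _ => sum_nonneg fun _ _ => Nat.cast_nonneg _
  -- step 2 : mean
  have s4 : μ * gd.card ≤ ∑ b ∈ gd, Y b := by
    have h1 : ∑ b ∈ gd, Y b = ∑ b ∈ range (Uni.WW z), Y b := sum_subset hgd hyz
    have h2 : c1 δ * (V.card * Nat.totient (Uni.WW z)) * (Uni.WW z / (Nat.totient (Uni.WW z) * Real.log N)) ≤
        ∑ b ∈ range (Uni.WW z), Y b := by
      have h3 := sum_sv z V (fun f hf => (hV f hf).2.1)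
      have h4 : ∑ b ∈ range (Uni.WW z), Y b = c1 δ * (∑ b ∈ range (Uni.WW z), ((sv z V b).card : ℝ)) *
          (Uni.WW z / (Nat.totient (Uni.WW z) * Real.log N)) := by
        rw [hY]
        unfold yb
        rw [mul_sum, sum_mul]
      rw [h4]
      apply mul_le_mul_of_nonneg_right _ (by positivity)
      exact mul_le_mul_of_nonneg_left h3 hc1.le
    have h5 : c1 δ * (V.card * Nat.totient (Uni.WW z)) * (Uni.WW z / (Nat.totient (Uni.WW z) * Real.log N)) =
        c1 δ * (V.card / Real.log N) * Uni.WW z := by field_simp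
    have h6 : (gd.card : ℝ) ≤ (1 + δ) * dn q V * Uni.WW z := by rw [hgdd]; exact card_Rn_le' hP hq V
    rw [h1]
    refine le_trans ?_ h2
    rw [h5]
    have h10 : lam * dn q V ≤ V.card / Real.log N := by
      rw [le_div_iff₀ hL]; exact hcard
    calc μ * gd.card ≤ μ * ((1 + δ) * dn q V * Uni.WW z) := mul_le_mul_of_nonneg_left h6 hμ0.le
      _ = c1 δ * (lam * dn q V) * Uni.WW z := by
          rw [hμ]
          have : 1 + δ ≠ 0 := by linarith
          field_simp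
      _ ≤ c1 δ * (V.card / Real.log N) * Uni.WW z := by gcongr
  -- step 3 : the key inequality
  have s5 := Uni.key_ineq gd Y (fun b _ => hY0 b) k hμ0 s4
  have s6 : (c1 δ * (Uni.WW z / (Nat.totient (Uni.WW z) * Real.log N))) ^ (k + 1) *
      (((k + 1).factorial : ℝ) * ∑ T ∈ V.powersetCard (k + 1), (gz z T : ℝ)) ≤ ∑ b ∈ gd, Y b ^ (k + 1) := by
    have h1 : ∑ b ∈ gd, Y b ^ (k + 1) = ∑ b ∈ range (Uni.WW z), Y b ^ (k + 1) :=
      sum_subset hgd fun b hb hb' => by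
        rw [hyz b hb hb']; simp
    have h2 : ∑ b ∈ range (Uni.WW z), ((sv z V b).card.descFactorial (k + 1) : ℝ) =
      ((k + 1).factorial : ℝ) * ∑ T ∈ V.powersetCard (k + 1), (gz z T : ℝ) := by
      exact_mod_cast sum_desc_gz V k z
    rw [h1, ← h2, mul_sum]
    apply sum_le_sum
    intro b _
    have h3 : ((sv z V b).card.descFactorial (k + 1) : ℝ) ≤ ((sv z V b).card : ℝ) ^ (k + 1) := by
      exact_mod_cast Nat.descFactorial_le_pow _ _
    have h4 : 0 ≤ c1 δ * (Uni.WW z / (Nat.totient (Uni.WW z) * Real.log N)) := by positivity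
    calc (c1 δ * (Uni.WW z / (Nat.totient (Uni.WW z) * Real.log N))) ^ (k + 1) * ((sv z V b).card.descFactorial (k + 1) : ℝ)
        ≤ (c1 δ * (Uni.WW z / (Nat.totient (Uni.WW z) * Real.log N))) ^ (k + 1) * ((sv z V b).card : ℝ) ^ (k + 1) :=
          mul_le_mul_of_nonneg_left h3 (pow_nonneg h4 _)
      _ = Y b ^ (k + 1) := by
          rw [← mul_pow, hY]
          unfold yb
          congr 1
          ring
  have hph := Uni.ph_nonneg k (1 / μ)
  have hfac : (0:ℝ) < (k + 1).factorial := by exact_mod_cast Nat.factorial_pos _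
  have h12 : (0:ℝ) ≤ (1 - δ) * (N / Uni.WW z) := by
    have : (0:ℝ) ≤ 1 - δ := by linarith
    positivity
  have s7 : (1 - δ) * (N / Uni.WW z) * (Uni.ph k (1 / μ) * ((c1 δ * (Uni.WW z / (Nat.totient (Uni.WW z) * Real.log N))) ^ (k + 1) *
      (((k + 1).factorial : ℝ) * ∑ T ∈ V.powersetCard (k + 1), (gz z T : ℝ)))) ≤
      ((k + 1).factorial : ℝ) * ∑ T ∈ V.powersetCard (k + 1), (PN T N : ℝ) := by
    refine le_trans ?_ s3
    apply mul_le_mul_of_nonneg_left _ h12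
    refine le_trans ?_ s5
    exact mul_le_mul_of_nonneg_left s6 hph
  refine le_of_mul_le_mul_left ?_ hfac
  refine le_trans (le_of_eq ?_) s7
  ring

/-- the constant obtained with the parameter `δ` -/
noncomputable def FF (k : ℕ) (lam δ : ℝ) : ℝ :=
  (1 - δ) * Uni.ph k (1 / (c1 δ * lam / (1 + δ))) * c1 δ ^ (k + 1) / (1 + δ)

theorem par_bound (hP : Pr k δ q N z H) (hδ : 0 < δ) (hδ1 : δ ≤ 1 / 2) {lam : ℝ} (hlam : 0 < lam)
    (hq : 1 ≤ q) {V : Finset (ℤ × ℤ)} (hV : ∀ f ∈ V, OK H f)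
    (hcard : lam * dn q V * Real.log N ≤ V.card) :
    FF k lam δ * (N / Real.log N ^ (k + 1)) * ∑ T ∈ V.powersetCard (k + 1), BH T ≤
      ∑ T ∈ V.powersetCard (k + 1), (PN T N : ℝ) := by
  classical
  have h1 := heart hP hδ hδ1 hlam hq hV hcard
  obtain ⟨W, hWdef⟩ : ∃ W, W = Uni.WW z := ⟨_, rfl⟩
  have hW : 0 < W := by rw [hWdef]; exact Uni.WW_pos z
  rw [← hWdef] at h1
  have hW0 : (0:ℝ) < W := by exact_mod_cast hW
  have hL : 0 < Real.log N := by linarith [hP.hL]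
  have hφ0 : (0:ℝ) < Nat.totient W := by exact_mod_cast Nat.totient_pos.2 hW
  have hc1 : 0 < c1 δ := div_pos (by linarith) (by linarith)
  refine le_trans ?_ h1
  obtain ⟨G, hG⟩ : ∃ G : ℝ, G = ∑ T ∈ V.powersetCard (k + 1), (gz z T : ℝ) := ⟨_, rfl⟩
  rw [← hG]
  have h3 : ∑ T ∈ V.powersetCard (k + 1), BH T ≤ (1 + δ) * (((W : ℝ) / Nat.totient W) ^ (k + 1) * (1 / W)) * G := by
    rw [hG, mul_sum]
    apply sum_le_sum
    intro T hT
    rw [mem_powersetCard] at hT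
    have := hP.bh T hT.2 (fun f hf => hV f (hT.1 hf))
    rw [← hWdef] at this
    refine this.trans (le_of_eq ?_)
    ring
  obtain ⟨P, hPdef⟩ : ∃ P : ℝ, P = Uni.ph k (1 / (c1 δ * lam / (1 + δ))) := ⟨_, rfl⟩
  have hph : 0 ≤ P := by rw [hPdef]; exact Uni.ph_nonneg k _
  have h12 : (0:ℝ) ≤ 1 - δ := by linarith
  have hN0 : (0:ℝ) ≤ N := Nat.cast_nonneg N
  have hK0 : 0 < 1 + δ := by linarith
  have hcoef : 0 ≤ FF k lam δ * (N / Real.log N ^ (k + 1)) := by
    unfold FF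
    rw [← hPdef]
    positivity
  refine (mul_le_mul_of_nonneg_left h3 hcoef).trans (le_of_eq ?_)
  unfold FF
  rw [← hPdef]
  have e1 : (1 - δ) * P * c1 δ ^ (k + 1) / (1 + δ) * (N / Real.log N ^ (k + 1)) *
      ((1 + δ) * (((W : ℝ) / Nat.totient W) ^ (k + 1) * (1 / W)) * G) =
      ((1 + δ) / (1 + δ)) * ((1 - δ) * (N / W) * (P * ((c1 δ ^ (k + 1) * (((W : ℝ) / Nat.totient W) ^ (k + 1)
        / Real.log N ^ (k + 1))) * G))) := by ring
  rw [e1, div_self hK0.ne', one_mul]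
  congr 3
  rw [mul_pow, ← div_pow, div_div]

/-- the constant tends to `∏ (1 - i/lam)` -/
lemma FF_tendsto (k : ℕ) {lam : ℝ} (hlam : 0 < lam) :
    Tendsto (FF k lam) (𝓝 0) (𝓝 (Uni.ph k (1 / lam))) := by
  have hc : ContinuousAt c1 0 := by
    unfold c1
    apply ContinuousAt.div
    · fun_prop
    · fun_prop
    · norm_num
  have hc0 : c1 0 = 1 := by unfold c1; norm_num
  have hph : Continuous (Uni.ph k) := by
    unfold Uni.ph
    fun_prop
  have h : ContinuousAt (FF k lam) 0 := by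
    unfold FF
    have h1 : ContinuousAt (fun δ : ℝ => 1 / (c1 δ * lam / (1 + δ))) 0 := by
      apply ContinuousAt.div continuousAt_const
      · apply ContinuousAt.div (hc.mul continuousAt_const)
        · fun_prop
        · norm_num
      · rw [hc0]; simp [hlam.ne']
    have h2 : ContinuousAt (fun δ : ℝ => Uni.ph k (1 / (c1 δ * lam / (1 + δ)))) 0 :=
      hph.continuousAt.comp h1
    apply ContinuousAt.div
    · apply ContinuousAt.mul
      · apply ContinuousAt.mul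
        · fun_prop
        · exact h2
      · exact hc.pow _
    · fun_prop
    · norm_num
  have h3 : FF k lam 0 = Uni.ph k (1 / lam) := by
    unfold FF
    rw [hc0]
    simp
  rw [← h3]
  exact h

lemma BH_nonneg (T : Finset (ℤ × ℤ)) (hT : ∀ f ∈ T, OK H f) : 0 ≤ BH T := by
  have h := BH_hasProd T (fun f hf => (hT f hf).1) (fun f hf => (hT f hf).2.1)
  rw [HasProd] at h
  exact ge_of_tendsto' h fun S => prod_nonneg fun p _ => lc_nonneg T p.2

/-- the lower bound for the sum over all `(k+1)`-subsets of a set of linear forms -/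
theorem universal (k c q : ℕ) (hq : 1 ≤ q) {lam θ : ℝ} (hlam : (k : ℝ) < lam)
    (hθ0 : 0 < θ) (hθ : θ < ∏ i ∈ range k, (1 - (i + 1 : ℝ) / lam)) :
    ∀ᶠ N : ℕ in atTop, ∀ V : Finset (ℤ × ℤ), (∀ f ∈ V, OK (Real.log N ^ c) f) →
      lam * dn q V * Real.log N ≤ V.card →
      θ * (∑ T ∈ V.powersetCard (k + 1), BH T) * (∫ t in (2:ℝ)..N, 1 / Real.log t ^ (k + 1)) ≤
        ∑ T ∈ V.powersetCard (k + 1), (PN T N : ℝ) := by
  have hlam0 : 0 < lam := lt_of_le_of_lt (Nat.cast_nonneg k) hlam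
  rw [← Uni.ph_eq k hlam] at hθ
  obtain ⟨θ', h1, h2⟩ := exists_between hθ
  have h3 := (FF_tendsto k hlam0).eventually (lt_mem_nhds h2)
  obtain ⟨r, hr, h4⟩ := Metric.eventually_nhds_iff.1 h3
  obtain ⟨δ, hδdef⟩ : ∃ δ, δ = min (r / 2) (1 / 4) := ⟨_, rfl⟩
  have hδ : 0 < δ := by rw [hδdef]; exact lt_min (by positivity) (by norm_num)
  have hδ1 : δ ≤ 1 / 4 := by rw [hδdef]; exact min_le_right _ _
  have hδr : δ < r := by rw [hδdef]; exact lt_of_le_of_lt (min_le_left _ _) (by linarith)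
  have h5 : θ' < FF k lam δ := h4 (by
    rw [Real.dist_eq, sub_zero, abs_of_pos hδ]; exact hδr)
  have hη : 0 < (θ' - θ) / θ := div_pos (by linarith) hθ0
  filter_upwards [Pr_eventually k c q hδ (by linarith), Uni.li_upper (k + 1) hη] with N hN hli
  intro V hV hcard
  obtain ⟨z, hP⟩ := hN
  have hL : 0 < Real.log N := by linarith [hP.hL]
  have h6 := par_bound hP hδ (by linarith) hlam0 hq hV hcard
  refine le_trans ?_ h6
  have hS : 0 ≤ ∑ T ∈ V.powersetCard (k + 1), BH T :=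
    sum_nonneg fun T hT => BH_nonneg T fun f hf => hV f ((mem_powersetCard.1 hT).1 hf)
  have hX : (0:ℝ) ≤ N / Real.log N ^ (k + 1) := by positivity
  calc θ * (∑ T ∈ V.powersetCard (k + 1), BH T) * (∫ t in (2:ℝ)..N, 1 / Real.log t ^ (k + 1))
      ≤ θ * (∑ T ∈ V.powersetCard (k + 1), BH T) * ((1 + (θ' - θ) / θ) * (N / Real.log N ^ (k + 1))) :=
        mul_le_mul_of_nonneg_left hli (mul_nonneg hθ0.le hS)
    _ = θ' * (N / Real.log N ^ (k + 1)) * ∑ T ∈ V.powersetCard (k + 1), BH T := by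
        field_simp
        ring
    _ ≤ FF k lam δ * (N / Real.log N ^ (k + 1)) * ∑ T ∈ V.powersetCard (k + 1), BH T := by
        gcongr

end Pool.Agent.TH891.AL
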