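import Mathlib
import Pool.Agent.TH891.AL.L1
import Pool.Agent.TH891.SP.S3

set_option autoImplicit false

/-! Degenerate boxes of an array, helper891. -/

namespace Pool.Agent.TH891.AL

open Finset

open Classical in
/-- tuples with a coincidence -/
lemma coinc {α : Type*} (m : ℕ) (A : Finset α) (φ : α → ℝ) (h0 : ∀ a, 0 ≤ φ a) (h1 : ∀ a, φ a ≤ 1) (j j' : Fin m)
    (hj : j ≠ j') (D : α → α → Prop)
    (hD : ∀ a ∈ A, ∀ a' ∈ A, ∀ c ∈ A, D a c → D a' c → a = a') :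
    ∑ b ∈ (Fintype.piFinset (fun _ : Fin m => A)).filter (fun b => D (b j) (b j')), ∏ i, φ (b i) ≤
      (∑ a ∈ A, φ a) ^ (m - 1) := by
  classical
  obtain ⟨P, hP⟩ : ∃ P, P = (Fintype.piFinset (fun _ : Fin m => A)).filter (fun b => D (b j) (b j')) := ⟨_, rfl⟩
  rw [← hP]
  set rho : (Fin m → α) → ({i : Fin m // i ≠ j} → α) := fun b i => b i with hrho
  have e1 : ∑ b ∈ P, ∏ i, φ (b i) ≤ ∑ b ∈ P, ∏ i : {i : Fin m // i ≠ j}, φ (rho b i) := by
    apply sum_le_sum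
    intro b _
    rw [Fintype.prod_eq_mul_prod_subtype_ne (fun i => φ (b i)) j]
    have : 0 ≤ ∏ i : {i : Fin m // i ≠ j}, φ (b i) := prod_nonneg fun i _ => h0 _
    calc φ (b j) * ∏ i : {i : Fin m // i ≠ j}, φ (b i) ≤ 1 * ∏ i : {i : Fin m // i ≠ j}, φ (b i) :=
          mul_le_mul_of_nonneg_right (h1 _) this
      _ = _ := by rw [one_mul]
  have hinj : Set.InjOn rho P := by
    intro b hb b' hb' h
    rw [mem_coe, hP, mem_filter, Fintype.mem_piFinset] at hb hb'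
    have h2 : ∀ i, i ≠ j → b i = b' i := by
      intro i hi
      have := congrFun h ⟨i, hi⟩
      exact this
    funext i
    by_cases hi : i = j
    · have h3 := h2 j' hj.symm
      have h4 := hb.2
      have h5 := hb'.2
      rw [← h3] at h5
      rw [hi]
      exact hD _ (hb.1 j) _ (hb'.1 j) _ (hb.1 j') h4 h5
    · exact h2 i hi
  have e2 : ∑ b ∈ P, ∏ i : {i : Fin m // i ≠ j}, φ (rho b i) =
      ∑ b ∈ P.image rho, ∏ i : {i : Fin m // i ≠ j}, φ (b i) := by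
    rw [sum_image hinj]
  have hsub : P.image rho ⊆ Fintype.piFinset (fun _ : {i : Fin m // i ≠ j} => A) := by
    intro b' hb'
    obtain ⟨b, hb, rfl⟩ := mem_image.1 hb'
    rw [Fintype.mem_piFinset]
    intro i
    rw [hP] at hb
    exact Fintype.mem_piFinset.1 (mem_filter.1 hb).1 i
  have e3 : ∑ b ∈ P.image rho, ∏ i : {i : Fin m // i ≠ j}, φ (b i) ≤
      ∑ b ∈ Fintype.piFinset (fun _ : {i : Fin m // i ≠ j} => A), ∏ i : {i : Fin m // i ≠ j}, φ (b i) :=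
    sum_le_sum_of_subset_of_nonneg hsub fun b _ _ => prod_nonneg fun i _ => h0 _
  have e4 : ∑ b ∈ Fintype.piFinset (fun _ : {i : Fin m // i ≠ j} => A), ∏ i : {i : Fin m // i ≠ j}, φ (b i) =
      (∑ a ∈ A, φ a) ^ (m - 1) := by
    have := prod_univ_sum (fun _ : {i : Fin m // i ≠ j} => A) (fun _ a => φ a)
    rw [prod_const, card_univ, Fintype.card_subtype_compl, Fintype.card_subtype_eq, Fintype.card_fin] at this
    exact this.symm
  rw [← e4]
  exact e1.trans (e2.le.trans e3)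

open Classical in
/-- degenerate members of an extended family -/
theorem deg_ext {ι X Y α κ : Type*} [Fintype ι] (XS : Finset X) (ev : X → ι → Y) (m : ℕ) (hm : 1 ≤ m)
    (A : Finset α) (K : Finset κ) (f : κ → α × Y → ℝ) (f0 : ∀ n y, 0 ≤ f n y) (f1 : ∀ n y, f n y ≤ 1)
    (p p' : Fin m × ι) (hp : p.1 ≠ p'.1) (D : α × Y → α × Y → Prop)
    (hD : ∀ x ∈ XS, ∀ a ∈ A, ∀ a' ∈ A, ∀ c ∈ A, D (a, ev x p.2) (c, ev x p'.2) →
      D (a', ev x p.2) (c, ev x p'.2) → a = a') {τ : ℝ} (hτ : 0 < τ)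
    (hP : (K.card : ℝ) * XS.card * τ ^ m ≤
      ∑ n ∈ K, Frm (Fintype.piFinset (fun _ : Fin m => A) ×ˢ XS)
      (fun (bx : (Fin m → α) × X) (ji : Fin m × ι) => (bx.1 ji.1, ev bx.2 ji.2)) (fun _ => f n)) :
    ∑ n ∈ K, ∑ bx ∈ (Fintype.piFinset (fun _ : Fin m => A) ×ˢ XS).filter
        (fun bx => D (bx.1 p.1, ev bx.2 p.2) (bx.1 p'.1, ev bx.2 p'.2)),
        ∏ ji : Fin m × ι, f n (bx.1 ji.1, ev bx.2 ji.2) ≤
      (1 / τ) * ∑ n ∈ K, Frm (Fintype.piFinset (fun _ : Fin m => A) ×ˢ XS)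
      (fun (bx : (Fin m → α) × X) (ji : Fin m × ι) => (bx.1 ji.1, ev bx.2 ji.2)) (fun _ => f n) := by
  classical
  obtain ⟨P, hPd⟩ : ∃ P, P = Fintype.piFinset (fun _ : Fin m => A) := ⟨_, rfl⟩
  rw [← hPd] at hP ⊢
  obtain ⟨φ, hφ⟩ : ∃ φ : κ → X → α → ℝ, φ = fun n x a => ∏ i, f n (a, ev x i) := ⟨_, rfl⟩
  have hφ0 : ∀ n x a, 0 ≤ φ n x a := fun n x a => by rw [hφ]; exact prod_nonneg fun i _ => f0 _ _
  have hφ1 : ∀ n x a, φ n x a ≤ 1 := fun n x a => by
    rw [hφ]; exact prod_le_one (fun i _ => f0 _ _) fun i _ => f1 _ _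
  obtain ⟨Y', hY⟩ : ∃ Y' : κ → X → ℝ, Y' = fun n x => ∑ a ∈ A, φ n x a := ⟨_, rfl⟩
  have hY0 : ∀ n x, 0 ≤ Y' n x := fun n x => by rw [hY]; exact sum_nonneg fun a _ => hφ0 n x a
  obtain ⟨L, hL⟩ : ∃ L : ℝ, L = ∑ n ∈ K, Frm (P ×ˢ XS)
    (fun (bx : (Fin m → α) × X) (ji : Fin m × ι) => (bx.1 ji.1, ev bx.2 ji.2)) (fun _ => f n) := ⟨_, rfl⟩
  rw [← hL] at hP ⊢
  have e0 : ∀ n (b : Fin m → α) x, ∏ ji : Fin m × ι, f n (b ji.1, ev x ji.2) = ∏ j, φ n x (b j) := by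
    intro n b x
    rw [Fintype.prod_prod_type, hφ]
  have e1 : L = ∑ n ∈ K, ∑ x ∈ XS, Y' n x ^ m := by
    rw [hL]
    unfold Frm
    apply sum_congr rfl
    intro n _
    rw [sum_product_right]
    apply sum_congr rfl
    intro x _
    have := prod_univ_sum (fun _ : Fin m => A) (fun _ a => φ n x a)
    rw [prod_const, card_univ, Fintype.card_fin] at this
    rw [hY]
    beta_reduce
    rw [this, hPd]
    apply sum_congr rfl
    intro b _
    exact e0 n b x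
  have e2 : ∑ n ∈ K, ∑ bx ∈ (P ×ˢ XS).filter (fun bx => D (bx.1 p.1, ev bx.2 p.2) (bx.1 p'.1, ev bx.2 p'.2)),
        ∏ ji : Fin m × ι, f n (bx.1 ji.1, ev bx.2 ji.2) ≤ ∑ n ∈ K, ∑ x ∈ XS, Y' n x ^ (m - 1) := by
    apply sum_le_sum
    intro n _
    rw [sum_filter, sum_product_right]
    apply sum_le_sum
    intro x hx
    simp_rw [e0]
    rw [← sum_filter, hPd, hY]
    exact coinc m A (φ n x) (hφ0 n x) (hφ1 n x) p.1 p'.1 hp (fun a c => D (a, ev x p.2) (c, ev x p'.2)) (hD x hx)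
  refine e2.trans ?_
  have hm0 : (0:ℝ) < m := by exact_mod_cast hm
  have hm1 : (1:ℝ) ≤ m := by exact_mod_cast hm
  calc ∑ n ∈ K, ∑ x ∈ XS, Y' n x ^ (m - 1)
      ≤ ∑ n ∈ K, ∑ x ∈ XS, (1 / τ) * (((m - 1 : ℝ) / m) * Y' n x ^ m + (1 / m) * τ ^ m) :=
        sum_le_sum fun n _ => sum_le_sum fun x _ => Pool.Agent.TH891.SP.young m hm (hY0 n x) hτ
    _ = (1 / τ) * (((m - 1 : ℝ) / m) * L + (1 / m) * (K.card * XS.card * τ ^ m)) := by
        rw [e1]
        simp_rw [← mul_sum, sum_add_distrib, ← mul_sum, sum_const, nsmul_eq_mul]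
        congr 1
        congr 1
        ring
    _ ≤ (1 / τ) * (((m - 1 : ℝ) / m) * L + (1 / m) * L) := by gcongr
    _ = (1 / τ) * L := by
        field_simp
        ring

section grid

variable {J : Type} [Fintype J] [DecidableEq J] {α : J → Type}

open Classical in
/-- degenerate boxes through the coordinate `j₀` -/
theorem deg_grid {κ : Type*} (m : J → ℕ) (A : ∀ j, Finset (α j)) (K : Finset κ) (f : κ → (∀ j, α j) → ℝ)
    (f0 : ∀ n y, 0 ≤ f n y) (f1 : ∀ n y, f n y ≤ 1) (j₀ : J) (hm : 1 ≤ m j₀) (i i' : ∀ j, Fin (m j))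
    (hi : i j₀ ≠ i' j₀) (D : (∀ j, α j) → (∀ j, α j) → Prop)
    (hD : ∀ a a' c : ∀ j, α j, (∀ j, a j ∈ A j) → (∀ j, a' j ∈ A j) → (∀ j, c j ∈ A j) →
      (∀ j, j ≠ j₀ → a j = a' j) → D a c → D a' c → a = a') {τ : ℝ} (hτ : 0 < τ)
    (hP : (K.card : ℝ) * (∏ j : {j // j ≠ j₀}, ((A j).card : ℝ) ^ m j) * τ ^ m j₀ ≤
      ∑ n ∈ K, Frm (BX m A) (ent m) (fun _ => f n)) :
    ∑ n ∈ K, ∑ x ∈ (BX m A).filter (fun x => D (ent m x i) (ent m x i')), ∏ l, f n (ent m x l) ≤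
      (1 / τ) * ∑ n ∈ K, Frm (BX m A) (ent m) (fun _ => f n) := by
  classical
  set m' : {j // j ≠ j₀} → ℕ := fun j => m j with hm'
  set A' : ∀ j : {j // j ≠ j₀}, Finset (α j) := fun j => A j with hA'
  set eι := Equiv.piSplitAt j₀ (fun j => Fin (m j)) with heι
  set eX := Equiv.piSplitAt j₀ (fun j => (Fin (m j) → α j)) with heX
  set eY := Equiv.piSplitAt j₀ α with heY
  have hmem : ∀ x, x ∈ BX m A ↔ eX x ∈ Fintype.piFinset (fun _ : Fin (m j₀) => A j₀) ×ˢ BX m' A' := by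
    intro x
    simp only [mem_product, Fintype.mem_piFinset, mem_BX, heX, Equiv.piSplitAt_apply]
    constructor
    · intro h
      exact ⟨fun i => h j₀ i, fun j i => h j i⟩
    · rintro ⟨h3, h4⟩ j i
      by_cases hj : j = j₀
      · subst hj; exact h3 i
      · exact h4 ⟨j, hj⟩ i
  have hsp : ∀ x l, eY (ent m x l) = ((eX x).1 (eι l).1, ent m' (eX x).2 (eι l).2) := fun x l => rfl
  have hsp' : ∀ x l, ent m x l = eY.symm ((eX x).1 (eι l).1, ent m' (eX x).2 (eι l).2) := by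
    intro x l
    rw [← hsp, Equiv.symm_apply_apply]
  have e1 : ∀ n, Frm (BX m A) (ent m) (fun _ => f n) =
      Frm (Fintype.piFinset (fun _ : Fin (m j₀) => A j₀) ×ˢ BX m' A')
      (fun (bx : (Fin (m j₀) → α j₀) × _) (ji : Fin (m j₀) × _) => (bx.1 ji.1, ent m' bx.2 ji.2))
      (fun _ y => f n (eY.symm y)) := by
    intro n
    rw [Frm_congr (Fintype.piFinset (fun _ : Fin (m j₀) => A j₀) ×ˢ BX m' A')
      (fun (bx : (Fin (m j₀) → α j₀) × _) (ji : Fin (m j₀) × _) => (bx.1 ji.1, ent m' bx.2 ji.2))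
      (BX m A) (ent m) eι eX eY hmem hsp (fun _ => f n)]
  have hc : ((BX m' A').card : ℝ) = ∏ j : {j // j ≠ j₀}, ((A j).card : ℝ) ^ m j := by
    rw [card_BX]
    push_cast
    rfl
  simp_rw [e1] at hP ⊢
  rw [← hc] at hP
  have hy : ∀ (a : α j₀) (y : ∀ j : {j // j ≠ j₀}, α j), a ∈ A j₀ → (∀ j, y j ∈ A' j) →
      ∀ j, (eY.symm (a, y)) j ∈ A j := by
    intro a y ha hy j
    rw [heY, Equiv.piSplitAt_symm_apply]
    split_ifs with h
    · subst h; exact ha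
    · exact hy ⟨j, h⟩
  have h := deg_ext (BX m' A') (ent m') (m j₀) hm (A j₀) K (fun n y => f n (eY.symm y))
    (fun n y => f0 n _) (fun n y => f1 n _) (eι i) (eι i') hi (fun u v => D (eY.symm u) (eY.symm v)) (by
      intro x hx a ha a' ha' c hc h1 h2
      have hx' : ∀ l j, ent m' x l j ∈ A' j := fun l j => mem_BX.1 hx j (l j)
      have h3 := hD _ _ _ (hy a _ ha (hx' _)) (hy a' _ ha' (hx' _)) (hy c _ hc (hx' _)) (by
        intro j hj
        rw [heY, Equiv.piSplitAt_symm_apply, Equiv.piSplitAt_symm_apply, dif_neg hj, dif_neg hj]) h1 h2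
      exact congrArg Prod.fst (eY.symm.injective h3)) hτ hP
  refine le_trans (le_of_eq ?_) h
  apply sum_congr rfl
  intro n _
  rw [sum_filter, sum_filter]
  apply sum_equiv eX hmem
  intro x _
  rw [hsp', hsp']
  have e3 : ∏ l, f n (ent m x l) = ∏ ji : Fin (m j₀) × (∀ j : {j // j ≠ j₀}, Fin (m j)),
      f n (eY.symm ((eX x).1 ji.1, ent m' (eX x).2 ji.2)) := by
    rw [← Equiv.prod_comp eι]
    apply prod_congr rfl
    intro l _
    rw [hsp']
  rw [e3]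

open Classical in
/-- the non degenerate boxes -/
theorem nondeg {κ : Type*} {Z : Type*} (m : J → ℕ) (A : ∀ j, Finset (α j)) (K : Finset κ) (f : κ → (∀ j, α j) → ℝ)
    (f0 : ∀ n y, 0 ≤ f n y) (f1 : ∀ n y, f n y ≤ 1) (hm : ∀ j, 1 ≤ m j) (Lf : (∀ j, α j) → Z)
    (hLf : ∀ j, ∀ a a' : ∀ j, α j, (∀ i, a i ∈ A i) → (∀ i, a' i ∈ A i) → (∀ i, i ≠ j → a i = a' i) →
      Lf a = Lf a' → a = a') {τ : ℝ}
    (hτ : 0 < τ) (hP : ∀ j₀, (K.card : ℝ) * (∏ j : {j // j ≠ j₀}, ((A j).card : ℝ) ^ m j) * τ ^ m j₀ ≤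
      ∑ n ∈ K, Frm (BX m A) (ent m) (fun _ => f n)) :
    (1 - (∏ j, m j) * ((∏ j, m j) - 1) / (2 * τ)) * ∑ n ∈ K, Frm (BX m A) (ent m) (fun _ => f n) ≤
      ∑ n ∈ K, ∑ x ∈ (BX m A).filter (fun x => Function.Injective (fun i => Lf (ent m x i))),
        ∏ l, f n (ent m x l) := by
  classical
  obtain ⟨L, hL⟩ : ∃ L : ℝ, L = ∑ n ∈ K, Frm (BX m A) (ent m) (fun _ => f n) := ⟨_, rfl⟩
  rw [← hL]
  simp_rw [← hL] at hP
  have hL0 : 0 ≤ L := by rw [hL]; exact sum_nonneg fun n _ => Frm_nonneg _ _ _ fun _ => f0 n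
  set M : ℕ := ∏ j, m j with hM
  set D := ∑ n ∈ K, ∑ x ∈ (BX m A).filter (fun x => ¬ Function.Injective (fun i => Lf (ent m x i))),
    ∏ l, f n (ent m x l) with hD
  set E : (∀ j, Fin (m j)) × (∀ j, Fin (m j)) → ℝ := fun q =>
    ∑ n ∈ K, ∑ x ∈ (BX m A).filter (fun x => Lf (ent m x q.1) = Lf (ent m x q.2)), ∏ l, f n (ent m x l) with hE
  have h1 : L = (∑ n ∈ K, ∑ x ∈ (BX m A).filter (fun x => Function.Injective (fun i => Lf (ent m x i))),
      ∏ l, f n (ent m x l)) + D := by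
    rw [hL, hD]
    unfold Frm
    rw [← sum_add_distrib]
    apply sum_congr rfl
    intro n _
    rw [sum_filter_add_sum_filter_not]
  have h2 : 2 * D ≤ ∑ q ∈ (univ : Finset (∀ j, Fin (m j))).offDiag, E q := by
    have hsw : ∑ q ∈ (univ : Finset (∀ j, Fin (m j))).offDiag, E q = ∑ n ∈ K,
        ∑ q ∈ (univ : Finset (∀ j, Fin (m j))).offDiag,
          ∑ x ∈ (BX m A).filter (fun x => Lf (ent m x q.1) = Lf (ent m x q.2)), ∏ l, f n (ent m x l) := sum_comm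
    rw [hsw, hD, mul_sum]
    apply sum_le_sum
    intro n _
    simp_rw [sum_filter]
    have hsw2 : ∑ q ∈ (univ : Finset (∀ j, Fin (m j))).offDiag, ∑ x ∈ BX m A,
        (if Lf (ent m x q.1) = Lf (ent m x q.2) then ∏ l, f n (ent m x l) else 0) = ∑ x ∈ BX m A,
          ∑ q ∈ (univ : Finset (∀ j, Fin (m j))).offDiag,
            (if Lf (ent m x q.1) = Lf (ent m x q.2) then ∏ l, f n (ent m x l) else 0) := sum_comm
    rw [hsw2, mul_sum]
    apply sum_le_sum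
    intro x _
    have hp0 : 0 ≤ ∏ l, f n (ent m x l) := prod_nonneg fun l _ => f0 _ _
    split_ifs with hx
    · rw [mul_zero]
      apply sum_nonneg
      intro q _
      split_ifs
      · exact hp0
      · exact le_rfl
    · rw [Function.Injective] at hx
      push Not at hx
      obtain ⟨a, b, hab, hne⟩ := hx
      have hsub : ({(a, b), (b, a)} : Finset ((∀ j, Fin (m j)) × (∀ j, Fin (m j)))) ⊆
          (univ : Finset (∀ j, Fin (m j))).offDiag := by
        intro q hq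
        rw [mem_insert, mem_singleton] at hq
        rw [mem_offDiag]
        rcases hq with rfl | rfl
        · exact ⟨mem_univ _, mem_univ _, hne⟩
        · exact ⟨mem_univ _, mem_univ _, hne.symm⟩
      calc 2 * ∏ l, f n (ent m x l) =
            ∑ q ∈ ({(a, b), (b, a)} : Finset ((∀ j, Fin (m j)) × (∀ j, Fin (m j)))),
              (if Lf (ent m x q.1) = Lf (ent m x q.2) then ∏ l, f n (ent m x l) else 0) := by
            rw [sum_pair (by
              intro h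
              exact hne (congrArg Prod.fst h))]
            rw [if_pos hab, if_pos hab.symm]
            ring
        _ ≤ _ := by
            apply sum_le_sum_of_subset_of_nonneg hsub
            intro q _ _
            split_ifs
            · exact hp0
            · exact le_rfl
  have h3 : ∀ q ∈ (univ : Finset (∀ j, Fin (m j))).offDiag, E q ≤ (1 / τ) * L := by
    intro q hq
    rw [mem_offDiag] at hq
    obtain ⟨j₀, hj⟩ := Function.ne_iff.1 hq.2.2
    have h4 := deg_grid m A K f f0 f1 j₀ (hm j₀) q.1 q.2 hj (fun a c => Lf a = Lf c) (by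
      intro a a' c ha ha' _ haa h5 h6
      exact hLf j₀ a a' ha ha' haa (h5.trans h6.symm)) hτ (by rw [← hL]; exact hP j₀)
    rw [← hL] at h4
    exact h4
  have h4 : ∑ q ∈ (univ : Finset (∀ j, Fin (m j))).offDiag, E q ≤ (M * M - M : ℝ) * ((1 / τ) * L) := by
    refine (sum_le_card_nsmul _ _ _ h3).trans (le_of_eq ?_)
    rw [nsmul_eq_mul, offDiag_card, card_univ, Fintype.card_pi]
    simp only [Fintype.card_fin]
    rw [← hM, Nat.cast_sub (Nat.le_mul_self M), Nat.cast_mul]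
  have h5 : D ≤ (M * M - M : ℝ) / (2 * τ) * L := by
    have h6 := h2.trans h4
    have e : (M * M - M : ℝ) / (2 * τ) * L = ((M * M - M : ℝ) * ((1 / τ) * L)) / 2 := by field_simp
    rw [e]
    linarith
  have e2 : (1 - (M : ℝ) * (M - 1) / (2 * τ)) * L = L - (M * M - M : ℝ) / (2 * τ) * L := by ring
  rw [e2]
  linarith

end grid

end Pool.Agent.TH891.AL
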