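import Mathlib
import Pool.Agent.TH891.AL.L5
import Pool.Agent.TH891.AL.L6

set_option autoImplicit false

/-! The sharp lower bound for arrays of linear polynomials, helper891. -/

namespace Pool.Agent.TH891.AL

open Finset Filter Topology Pool.Agent.H387R2 Pool.Agent.H362R2.R1

variable {k : ℕ} {δ : ℝ} {q N z : ℕ} {H : ℝ}

lemma dn_pos (hP : Pr k δ q N z H) (hq : 1 ≤ q) {V : Finset (ℤ × ℤ)} (hV : ∀ f ∈ V, OK H f) (hne : V.Nonempty) :
    0 < dn q V := by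
  obtain ⟨f, hf⟩ := hne
  have h5 := single_free (hV f hf).2.1 z
  have hφ0 : (0:ℝ) < Nat.totient (Uni.WW z) := by exact_mod_cast Nat.totient_pos.2 (Uni.WW_pos z)
  have h6 : ∃ b ∈ range (Uni.WW z), cpf z b f ≠ 0 := by
    by_contra hc
    push Not at hc
    rw [sum_eq_zero hc] at h5
    linarith
  obtain ⟨b, _, hb⟩ := h6
  have h7 : Fr z f b := by
    by_contra hc
    apply hb
    unfold cpf
    rw [if_neg hc]
  have h8 := Fr_q hq hP.hqz hf h7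
  unfold dn
  have h9 : 0 < (Gq q V).card := card_pos.2 ⟨_, h8⟩
  have hq0 : (0:ℝ) < q := by exact_mod_cast hq
  positivity

lemma c2_pos (k : ℕ) {δ : ℝ} (hδ : 0 < δ) (hδ1 : δ ≤ 1 / 4) : 0 < c2 k δ := by
  unfold c2
  have h1 : 0 < 1 - δ := by linarith
  positivity

lemma c2_le_one (k : ℕ) {δ : ℝ} (hδ : 0 < δ) (hδ1 : δ ≤ 1 / 4) : c2 k δ ≤ 1 := by
  unfold c2
  have h1 : 0 < 1 - δ := by linarith
  rw [div_le_one (by positivity)]
  calc (1 - δ) ^ (k + 1) ≤ 1 := pow_le_one₀ h1.le (by linarith)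
    _ ≤ (1 + δ) ^ k := one_le_pow₀ (by linarith)

/-- the second constant -/
noncomputable def c3 (k : ℕ) (δ : ℝ) : ℝ := c2 k δ / (1 + δ) ^ (k + 1)

lemma c3_pos (k : ℕ) {δ : ℝ} (hδ : 0 < δ) (hδ1 : δ ≤ 1 / 4) : 0 < c3 k δ :=
  div_pos (c2_pos k hδ hδ1) (by positivity)

lemma c3_le_one (k : ℕ) {δ : ℝ} (hδ : 0 < δ) (hδ1 : δ ≤ 1 / 4) : c3 k δ ≤ 1 := by
  unfold c3
  rw [div_le_one (by positivity)]
  exact (c2_le_one k hδ hδ1).trans (one_le_pow₀ (by linarith))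

section grid

variable {J : Type} [Fintype J] [DecidableEq J] {α : J → Type}

open Classical in
/-- the boxes with distinct forms -/
noncomputable def IX (m : J → ℕ) (A : ∀ j, Finset (α j)) (Lf : (∀ j, α j) → ℤ × ℤ) : Finset (∀ j, Fin (m j) → α j) :=
  (BX m A).filter (fun x => Function.Injective (fun i => Lf (ent m x i)))

open Classical in
/-- the forms of the array -/
noncomputable def VA (A : ∀ j, Finset (α j)) (Lf : (∀ j, α j) → ℤ × ℤ) : Finset (ℤ × ℤ) :=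
  (Fintype.piFinset A).image Lf

open Classical in
/-- the forms of a box -/
noncomputable def FT (m : J → ℕ) (Lf : (∀ j, α j) → ℤ × ℤ) (x : ∀ j, Fin (m j) → α j) : Finset (ℤ × ℤ) :=
  univ.image (fun i => Lf (ent m x i))

lemma mem_VA {m : J → ℕ} {A : ∀ j, Finset (α j)} (Lf : (∀ j, α j) → ℤ × ℤ) {x : ∀ j, Fin (m j) → α j}
    (hx : x ∈ BX m A) (i : ∀ j, Fin (m j)) : Lf (ent m x i) ∈ VA A Lf := by
  unfold VA
  apply mem_image_of_mem
  rw [Fintype.mem_piFinset]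
  intro j
  exact mem_BX.1 hx j (i j)

lemma FT_card (m : J → ℕ) (hk : ∏ j, m j = k + 1) {A : ∀ j, Finset (α j)} {Lf : (∀ j, α j) → ℤ × ℤ}
    {x : ∀ j, Fin (m j) → α j} (hx : x ∈ IX m A Lf) : (FT m Lf x).card = k + 1 := by
  classical
  unfold IX at hx
  rw [mem_filter] at hx
  unfold FT
  rw [card_image_of_injective _ hx.2, card_univ, Fintype.card_pi]
  simpa using hk

lemma FT_OK (m : J → ℕ) {A : ∀ j, Finset (α j)} {Lf : (∀ j, α j) → ℤ × ℤ} (hV : ∀ f ∈ VA A Lf, OK H f)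
    {x : ∀ j, Fin (m j) → α j} (hx : x ∈ IX m A Lf) : ∀ f ∈ FT m Lf x, OK H f := by
  classical
  unfold IX at hx
  rw [mem_filter] at hx
  intro f hf
  unfold FT at hf
  obtain ⟨i, _, rfl⟩ := mem_image.1 hf
  exact hV _ (mem_VA Lf hx.1 i)

theorem fin_bound (m : J → ℕ) (hm : ∀ j, 1 ≤ m j) (hk : ∏ j, m j = k + 1) (A : ∀ j, Finset (α j))
    (Lf : (∀ j, α j) → ℤ × ℤ)
    (hLf : ∀ j, ∀ a a' : ∀ j, α j, (∀ i, a i ∈ A i) → (∀ i, a' i ∈ A i) → (∀ i, i ≠ j → a i = a' i) →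
      Lf a = Lf a' → a = a')
    (hP : Pr k δ q N z H) (hδ : 0 < δ) (hδ1 : δ ≤ 1 / 4) (hq : 1 ≤ q) (hV : ∀ f ∈ VA A Lf, OK H f)
    {lam : ℝ} (hlam : 0 < lam)
    (hcard : ∀ j₀, lam * (dn q (VA A Lf) * Real.log N) ^ (∏ j : {j // j ≠ j₀}, m j) ≤ (A j₀).card)
    (hpos : 0 ≤ 1 - ((k:ℝ) + 1) * k / (2 * (c3 k δ * lam))) :
    (1 - ((k:ℝ) + 1) * k / (2 * (c3 k δ * lam))) * (c2 k δ * (N / Real.log N ^ (k + 1)) *
      (((Uni.WW z : ℝ) / Nat.totient (Uni.WW z)) ^ (k + 1) *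
        ((∑ x ∈ BX m A, ((gc z (fun i => Lf (ent m x i))).card : ℝ)) / Uni.WW z))) ≤
      ∑ x ∈ IX m A Lf, (PN (FT m Lf x) N : ℝ) := by
  classical
  have hcι : Fintype.card (∀ j, Fin (m j)) = k + 1 := by
    rw [Fintype.card_pi]; simpa using hk
  rcases (BX m A).eq_empty_or_nonempty with hBX | hBX
  · unfold IX
    rw [hBX]
    simp
  have hVne : (VA A Lf).Nonempty := by
    obtain ⟨x, hx⟩ := hBX
    have : Nonempty (∀ j, Fin (m j)) := Fintype.card_pos_iff.1 (by omega)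
    obtain ⟨i⟩ := this
    exact ⟨_, mem_VA Lf hx i⟩
  obtain ⟨u, hu⟩ : ∃ u : ℝ, u = dn q (VA A Lf) := ⟨_, rfl⟩
  have hu0 : 0 < u := by rw [hu]; exact dn_pos hP hq hV hVne
  have hH := HolG_grid J α m A
  obtain ⟨R, hR⟩ : ∃ R, R = Rn q (VA A Lf) (Icc 1 N) := ⟨_, rfl⟩
  have t1 := total_lower hcι (BX m A) (ent m) hH Lf hP hδ (by linarith) hq hV (fun x hx i => mem_VA Lf hx i)
  have t2 := good_lower hcι (BX m A) (ent m) hH Lf hP hδ hq hV (fun x hx i => mem_VA Lf hx i)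
  rw [← hR] at t1
  rw [← hu] at t2
  simp_rw [← hu] at hcard
  have hc2 := c2_pos k hδ hδ1
  have hc3 := c3_pos k hδ hδ1
  have hc31 := c3_le_one k hδ hδ1
  have hL : 0 < Real.log N := by linarith [hP.hL]
  obtain ⟨P, hPd⟩ : ∃ P : ℝ, P = ∑ n ∈ R, Frm (BX m A) (ent m) (fun _ y => prf n (Lf y)) := ⟨_, rfl⟩
  rw [← hPd] at t1
  have hV0 : 0 ≤ (N : ℝ) / Real.log N ^ (k + 1) := by positivity
  have t3 : c2 k δ * (N / Real.log N ^ (k + 1)) * (((BX m A).card : ℝ) * ((1 / u) / (1 + δ)) ^ k) ≤ P :=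
    (mul_le_mul_of_nonneg_left t2 (mul_nonneg hc2.le hV0)).trans t1
  have hRc : (R.card : ℝ) ≤ (1 + δ) * u * N := by rw [hR, hu]; exact card_Rn_le hP hδ (by linarith) hq _
  obtain ⟨τ, hτ⟩ : ∃ τ : ℝ, τ = c3 k δ * lam := ⟨_, rfl⟩
  have hτ0 : 0 < τ := by rw [hτ]; exact mul_pos hc3 hlam
  rw [← hτ] at hpos ⊢
  have hcond : ∀ j₀, (R.card : ℝ) * (∏ j : {j // j ≠ j₀}, ((A j).card : ℝ) ^ m j) * τ ^ m j₀ ≤
      ∑ n ∈ R, Frm (BX m A) (ent m) (fun _ y => prf n (Lf y)) := by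
    intro j₀
    rw [← hPd]
    refine le_trans ?_ t3
    obtain ⟨E, hE⟩ : ∃ E : ℕ, E = ∏ j : {j // j ≠ j₀}, m j := ⟨_, rfl⟩
    have hEk : m j₀ * E = k + 1 := by
      rw [hE, ← hk]
      exact (Fintype.prod_eq_mul_prod_subtype_ne (fun j => m j) j₀).symm
    obtain ⟨Z, hZ⟩ : ∃ Z : ℝ, Z = ∏ j : {j // j ≠ j₀}, ((A j).card : ℝ) ^ m j := ⟨_, rfl⟩
    have hZ0 : 0 ≤ Z := by rw [hZ]; exact prod_nonneg fun j _ => pow_nonneg (Nat.cast_nonneg _) _
    have hXc : ((BX m A).card : ℝ) = ((A j₀).card : ℝ) ^ m j₀ * Z := by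
      rw [card_BX, hZ]
      push_cast
      exact Fintype.prod_eq_mul_prod_subtype_ne (fun j => ((A j).card : ℝ) ^ m j) j₀
    have h1 := hcard j₀
    rw [← hE] at h1
    have h2 : lam ^ m j₀ * (u * Real.log N) ^ (k + 1) ≤ ((A j₀).card : ℝ) ^ m j₀ := by
      have : (lam * (u * Real.log N) ^ E) ^ m j₀ ≤ ((A j₀).card : ℝ) ^ m j₀ :=
        pow_le_pow_left₀ (by positivity) h1 _
      rw [mul_pow, ← pow_mul, mul_comm E, hEk] at this
      exact this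
    have h3 : τ ^ m j₀ ≤ c3 k δ * lam ^ m j₀ := by
      rw [hτ, mul_pow]
      apply mul_le_mul_of_nonneg_right _ (by positivity)
      calc c3 k δ ^ m j₀ ≤ c3 k δ ^ 1 := pow_le_pow_of_le_one hc3.le hc31 (hm j₀)
        _ = c3 k δ := pow_one _
    rw [← hZ, hXc]
    have hD : 0 < (u * Real.log N) ^ (k + 1) := by positivity
    calc (R.card : ℝ) * Z * τ ^ m j₀ ≤ ((1 + δ) * u * N) * Z * (c3 k δ * lam ^ m j₀) := by gcongr
      _ = ((1 + δ) * c3 k δ) * (u * N * Z / (u * Real.log N) ^ (k + 1)) * (lam ^ m j₀ * (u * Real.log N) ^ (k + 1)) := by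
          generalize (u * Real.log N) ^ (k + 1) = D at hD
          field_simp
      _ ≤ ((1 + δ) * c3 k δ) * (u * N * Z / (u * Real.log N) ^ (k + 1)) * ((A j₀).card : ℝ) ^ m j₀ := by
          gcongr
      _ = c2 k δ * (N / Real.log N ^ (k + 1)) * (((A j₀).card : ℝ) ^ m j₀ * Z * ((1 / u) / (1 + δ)) ^ k) := by
          have e1 : (1 + δ) * c3 k δ = c2 k δ / (1 + δ) ^ k := by
            unfold c3
            rw [pow_succ]
            field_simp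
          rw [e1]
          have e2 : ((1 / u) / (1 + δ)) ^ k = 1 / (u ^ k * (1 + δ) ^ k) := by
            rw [div_div, div_pow, one_pow, mul_pow]
          rw [e2, mul_pow, pow_succ u]
          have hu1 : 0 < u ^ k := by positivity
          have hd1 : 0 < (1 + δ) ^ k := by positivity
          have hL1 : 0 < Real.log N ^ (k + 1) := by positivity
          generalize u ^ k = a at hu1 ⊢
          generalize (1 + δ) ^ k = b at hd1 ⊢
          generalize Real.log N ^ (k + 1) = d at hL1 ⊢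
          field_simp
  have h5 := nondeg m A R (fun n y => prf n (Lf y)) (fun n y => prf_nonneg n _) (fun n y => prf_le_one n _) hm Lf hLf
    hτ0 hcond
  rw [← hPd] at h5
  have e : (((∏ j, m j : ℕ) : ℝ) * (((∏ j, m j : ℕ) : ℝ) - 1)) = ((k:ℝ) + 1) * k := by
    rw [hk]; push_cast; ring
  rw [e] at h5
  have h5' : (1 - ((k:ℝ) + 1) * k / (2 * τ)) * P ≤ ∑ n ∈ R, ∑ x ∈ IX m A Lf, ∏ l, prf n (Lf (ent m x l)) := by
    unfold IX
    convert h5
  refine (mul_le_mul_of_nonneg_left t1 hpos).trans (h5'.trans ?_)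
  rw [sum_comm]
  apply sum_le_sum
  intro x _
  have e7 : ∀ n, ∏ l, prf n (Lf (ent m x l)) =
      if ∀ l, ((Lf (ent m x l)).1 * (n : ℤ) + (Lf (ent m x l)).2).natAbs.Prime then (1:ℝ) else 0 :=
    fun n => prod_prf n (fun l => Lf (ent m x l))
  simp_rw [e7]
  rw [← sum_filter, sum_const, nsmul_eq_mul, mul_one]
  apply Nat.cast_le.2
  unfold PN FT
  apply card_le_card
  intro n hn
  rw [mem_filter] at hn ⊢
  rw [hR] at hn
  unfold Rn at hn
  refine ⟨(mem_filter.1 hn.1).1, ?_⟩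
  intro f hf
  obtain ⟨i, _, rfl⟩ := mem_image.1 hf
  exact hn.2 i

theorem fin_bound_a (m : J → ℕ) (hm : ∀ j, 1 ≤ m j) (hk : ∏ j, m j = k + 1) (A : ∀ j, Finset (α j))
    (Lf : (∀ j, α j) → ℤ × ℤ)
    (hLf : ∀ j, ∀ a a' : ∀ j, α j, (∀ i, a i ∈ A i) → (∀ i, a' i ∈ A i) → (∀ i, i ≠ j → a i = a' i) →
      Lf a = Lf a' → a = a')
    (hP : Pr k δ q N z H) (hδ : 0 < δ) (hδ1 : δ ≤ 1 / 4) (hq : 1 ≤ q) (hV : ∀ f ∈ VA A Lf, OK H f)
    {lam : ℝ} (hlam : 0 < lam)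
    (hcard : ∀ j₀, lam * (dn q (VA A Lf) * Real.log N) ^ (∏ j : {j // j ≠ j₀}, m j) ≤ (A j₀).card)
    (hpos : 0 ≤ 1 - ((k:ℝ) + 1) * k / (2 * (c3 k δ * lam))) :
    (1 - ((k:ℝ) + 1) * k / (2 * (c3 k δ * lam))) * c3 k δ *
      (N / Real.log N ^ (k + 1)) * ∑ x ∈ IX m A Lf, BH (FT m Lf x) ≤
      ∑ x ∈ IX m A Lf, (PN (FT m Lf x) N : ℝ) := by
  classical
  refine le_trans ?_ (fin_bound m hm hk A Lf hLf hP hδ hδ1 hq hV hlam hcard hpos)
  have hc2 := c2_pos k hδ hδ1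
  have hV0 : 0 ≤ (N : ℝ) / Real.log N ^ (k + 1) := by
    have : 0 < Real.log N := by linarith [hP.hL]
    positivity
  have hW0 : (0:ℝ) < Uni.WW z := by exact_mod_cast Uni.WW_pos z
  have hφW : (0:ℝ) < Nat.totient (Uni.WW z) := by exact_mod_cast Nat.totient_pos.2 (Uni.WW_pos z)
  have hd1 : 1 ≤ 1 + δ := by linarith
  have h1 : ∑ x ∈ IX m A Lf, BH (FT m Lf x) ≤ (1 + δ) ^ (k + 1) *
      (((Uni.WW z : ℝ) / Nat.totient (Uni.WW z)) ^ (k + 1) *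
        ((∑ x ∈ BX m A, ((gc z (fun i => Lf (ent m x i))).card : ℝ)) / Uni.WW z)) := by
    have h0 : ∑ x ∈ IX m A Lf, BH (FT m Lf x) ≤ ∑ x ∈ IX m A Lf, (1 + δ) *
          (((Uni.WW z : ℝ) / Nat.totient (Uni.WW z)) ^ (k + 1) *
          (((gc z (fun i => Lf (ent m x i))).card : ℝ) / Uni.WW z)) := by
      apply sum_le_sum
      intro x hx
      rw [card_gc]
      exact hP.bh _ (FT_card m hk hx) (FT_OK m hV hx)
    rw [← mul_sum, ← mul_sum, ← sum_div] at h0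
    have h3 : ∑ x ∈ IX m A Lf, ((gc z (fun i => Lf (ent m x i))).card : ℝ) ≤
        ∑ x ∈ BX m A, ((gc z (fun i => Lf (ent m x i))).card : ℝ) := by
      unfold IX
      exact sum_le_sum_of_subset_of_nonneg (filter_subset _ _) fun _ _ _ => Nat.cast_nonneg _
    have h4 : 1 + δ ≤ (1 + δ) ^ (k + 1) := by
      calc 1 + δ = (1 + δ) ^ 1 := (pow_one _).symm
        _ ≤ _ := pow_le_pow_right₀ hd1 (by omega)
    obtain ⟨S1, hS1⟩ : ∃ S1 : ℝ, S1 = ∑ x ∈ IX m A Lf, ((gc z (fun i => Lf (ent m x i))).card : ℝ) := ⟨_, rfl⟩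
    obtain ⟨S2, hS2⟩ : ∃ S2 : ℝ, S2 = ∑ x ∈ BX m A, ((gc z (fun i => Lf (ent m x i))).card : ℝ) := ⟨_, rfl⟩
    have hS10 : 0 ≤ S1 := by rw [hS1]; exact sum_nonneg fun _ _ => Nat.cast_nonneg _
    rw [← hS1] at h0 h3
    rw [← hS2] at h3 ⊢
    refine h0.trans ?_
    obtain ⟨X, hXd⟩ : ∃ X : ℝ, X = ((Uni.WW z : ℝ) / Nat.totient (Uni.WW z)) ^ (k + 1) := ⟨_, rfl⟩
    have hX0 : 0 ≤ X := by rw [hXd]; positivity
    rw [← hXd]
    have h5 : X * (S1 / Uni.WW z) ≤ X * (S2 / Uni.WW z) :=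
      mul_le_mul_of_nonneg_left (div_le_div_of_nonneg_right h3 hW0.le) hX0
    have h6 : 0 ≤ X * (S1 / Uni.WW z) := mul_nonneg hX0 (div_nonneg hS10 hW0.le)
    exact mul_le_mul h4 h5 h6 (by positivity)
  have hd0 : 0 < (1 + δ) ^ (k + 1) := by positivity
  calc (1 - ((k:ℝ) + 1) * k / (2 * (c3 k δ * lam))) * c3 k δ *
      (N / Real.log N ^ (k + 1)) * ∑ x ∈ IX m A Lf, BH (FT m Lf x) =
      (1 - ((k:ℝ) + 1) * k / (2 * (c3 k δ * lam))) * (c2 k δ *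
      (N / Real.log N ^ (k + 1)) * ((∑ x ∈ IX m A Lf, BH (FT m Lf x)) / (1 + δ) ^ (k + 1))) := by
        conv_lhs => rw [mul_assoc (1 - ((k:ℝ) + 1) * k / (2 * (c3 k δ * lam))) (c3 k δ)]
        rw [mul_assoc (1 - ((k:ℝ) + 1) * k / (2 * (c3 k δ * lam)))]
        congr 1
        unfold c3
        ring
    _ ≤ _ := by
      apply mul_le_mul_of_nonneg_left _ hpos
      apply mul_le_mul_of_nonneg_left _ (mul_nonneg hc2.le hV0)
      rw [div_le_iff₀ hd0, mul_comm]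
      exact h1

theorem fin_bound_b (m : J → ℕ) (hm : ∀ j, 1 ≤ m j) (hk : ∏ j, m j = k + 1) (A : ∀ j, Finset (α j))
    (Lf : (∀ j, α j) → ℤ × ℤ)
    (hLf : ∀ j, ∀ a a' : ∀ j, α j, (∀ i, a i ∈ A i) → (∀ i, a' i ∈ A i) → (∀ i, i ≠ j → a i = a' i) →
      Lf a = Lf a' → a = a')
    (hP : Pr k δ q N z H) (hδ : 0 < δ) (hδ1 : δ ≤ 1 / 4) (hq : 1 ≤ q) (hV : ∀ f ∈ VA A Lf, OK H f)
    {lam : ℝ} (hlam : 0 < lam)
    (hcard : ∀ j₀, lam * (dn q (VA A Lf) * Real.log N) ^ (∏ j : {j // j ≠ j₀}, m j) ≤ (A j₀).card)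
    (hpos : 0 ≤ 1 - ((k:ℝ) + 1) * k / (2 * (c3 k δ * lam))) :
    (1 - ((k:ℝ) + 1) * k / (2 * (c3 k δ * lam))) * c3 k δ *
      (N / Real.log N ^ (k + 1)) * ((1 / dn q (VA A Lf)) ^ k * ∏ j, ((A j).card : ℝ) ^ m j) ≤
      ∑ x ∈ IX m A Lf, (PN (FT m Lf x) N : ℝ) := by
  classical
  refine le_trans ?_ (fin_bound m hm hk A Lf hLf hP hδ hδ1 hq hV hlam hcard hpos)
  have hcι : Fintype.card (∀ j, Fin (m j)) = k + 1 := by
    rw [Fintype.card_pi]; simpa using hk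
  have t2 := good_lower hcι (BX m A) (ent m) (HolG_grid J α m A) Lf hP hδ hq hV
    (fun x hx i => mem_VA Lf hx i)
  have hc2 := c2_pos k hδ hδ1
  have hV0 : 0 ≤ (N : ℝ) / Real.log N ^ (k + 1) := by
    have : 0 < Real.log N := by linarith [hP.hL]
    positivity
  have hX : ((BX m A).card : ℝ) = ∏ j, ((A j).card : ℝ) ^ m j := by
    rw [card_BX]; push_cast; rfl
  have hX0 : 0 ≤ ∏ j, ((A j).card : ℝ) ^ m j := prod_nonneg fun j _ => pow_nonneg (Nat.cast_nonneg _) _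
  obtain ⟨u, hu⟩ : ∃ u : ℝ, u = dn q (VA A Lf) := ⟨_, rfl⟩
  have hu0 : 0 ≤ u := by rw [hu]; unfold dn; positivity
  rw [hX, ← hu] at t2
  rw [← hu]
  have hd1 : (1 + δ) ^ k ≤ (1 + δ) ^ (k + 1) := pow_le_pow_right₀ (by linarith) (by omega)
  calc (1 - ((k:ℝ) + 1) * k / (2 * (c3 k δ * lam))) * c3 k δ *
      (N / Real.log N ^ (k + 1)) * ((1 / u) ^ k * ∏ j, ((A j).card : ℝ) ^ m j) =
      (1 - ((k:ℝ) + 1) * k / (2 * (c3 k δ * lam))) * (c2 k δ *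
      (N / Real.log N ^ (k + 1)) * ((∏ j, ((A j).card : ℝ) ^ m j) * ((1 / u) ^ k / (1 + δ) ^ (k + 1)))) := by
        conv_lhs => rw [mul_assoc (1 - ((k:ℝ) + 1) * k / (2 * (c3 k δ * lam))) (c3 k δ)]
        rw [mul_assoc (1 - ((k:ℝ) + 1) * k / (2 * (c3 k δ * lam)))]
        congr 1
        unfold c3
        ring
    _ ≤ (1 - ((k:ℝ) + 1) * k / (2 * (c3 k δ * lam))) * (c2 k δ *
      (N / Real.log N ^ (k + 1)) * ((∏ j, ((A j).card : ℝ) ^ m j) * ((1 / u) / (1 + δ)) ^ k)) := by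
      apply mul_le_mul_of_nonneg_left _ hpos
      apply mul_le_mul_of_nonneg_left _ (mul_nonneg hc2.le hV0)
      rw [div_pow (1 / u)]
      apply mul_le_mul_of_nonneg_left _ hX0
      apply div_le_div_of_nonneg_left (by positivity) (by positivity) hd1
    _ ≤ _ := by
      apply mul_le_mul_of_nonneg_left _ hpos
      apply mul_le_mul_of_nonneg_left t2 (mul_nonneg hc2.le hV0)

end grid

/-- the limiting fraction -/
noncomputable def FL (M : ℕ) (lam : ℝ) : ℝ := 1 - (M : ℝ) * (M - 1) / (2 * lam)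

noncomputable def FG (k : ℕ) (lam δ : ℝ) : ℝ :=
  (1 - ((k:ℝ) + 1) * k / (2 * (c3 k δ * lam))) * c3 k δ

lemma c2_cont (k : ℕ) : ContinuousAt (c2 k) 0 := by
  unfold c2
  apply ContinuousAt.div (by fun_prop) (by fun_prop)
  norm_num

lemma c2_zero (k : ℕ) : c2 k 0 = 1 := by unfold c2; simp
lemma c3_zero (k : ℕ) : c3 k 0 = 1 := by unfold c3; simp [c2_zero]

lemma c3_cont (k : ℕ) : ContinuousAt (c3 k) 0 := by
  unfold c3
  apply ContinuousAt.div (c2_cont k) (by fun_prop)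
  norm_num

lemma FP_tendsto (k : ℕ) {lam : ℝ} (hlam : 0 < lam) :
    Tendsto (fun δ => 1 - ((k:ℝ) + 1) * k / (2 * (c3 k δ * lam))) (𝓝 0) (𝓝 (FL (k + 1) lam)) := by
  have h : ContinuousAt (fun δ => 1 - ((k:ℝ) + 1) * k / (2 * (c3 k δ * lam))) 0 := by
    apply ContinuousAt.sub continuousAt_const
    apply ContinuousAt.div continuousAt_const
    · apply ContinuousAt.mul continuousAt_const
      exact ContinuousAt.mul (c3_cont k) continuousAt_const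
    · rw [c3_zero]; positivity
  have h2 := h.tendsto
  rw [c3_zero] at h2
  have e : FL (k + 1) lam = 1 - ((k:ℝ) + 1) * k / (2 * (1 * lam)) := by
    unfold FL; push_cast; ring_nf
  rw [e]
  exact h2

lemma FG_tendsto (k : ℕ) {lam : ℝ} (hlam : 0 < lam) :
    Tendsto (FG k lam) (𝓝 0) (𝓝 (FL (k + 1) lam)) := by
  have h1 := FP_tendsto k hlam
  have h3 := (c3_cont k).tendsto
  rw [c3_zero] at h3
  have h4 := h1.mul h3
  rw [mul_one] at h4
  exact h4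

/-- lower bounds for the sum over all boxes with distinct forms -/
theorem arrays {J : Type} [Fintype J] [DecidableEq J] (m : J → ℕ) (hm : ∀ j, 1 ≤ m j) {lam : ℝ} (hlam : 0 < lam)
    {θ : ℝ} (hθ0 : 0 < θ) (hθ : θ < FL (∏ j, m j) lam) (c q : ℕ) (hq : 1 ≤ q) :
    ∀ᶠ N : ℕ in atTop, ∀ (α : J → Type) (A : ∀ j, Finset (α j)) (Lf : (∀ j, α j) → ℤ × ℤ),
      (∀ j, ∀ a a' : ∀ j, α j, (∀ i, a i ∈ A i) → (∀ i, a' i ∈ A i) → (∀ i, i ≠ j → a i = a' i) →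
        Lf a = Lf a' → a = a') →
      (∀ f ∈ VA A Lf, OK (Real.log N ^ c) f) →
      (∀ j₀, lam * (dn q (VA A Lf) * Real.log N) ^ (∏ j : {j // j ≠ j₀}, m j) ≤ (A j₀).card) →
      θ * (∑ x ∈ IX m A Lf, BH (FT m Lf x)) * (∫ t in (2:ℝ)..N, 1 / Real.log t ^ (∏ j, m j)) ≤
        ∑ x ∈ IX m A Lf, (PN (FT m Lf x) N : ℝ) ∧
      θ * ((1 / dn q (VA A Lf)) ^ ((∏ j, m j) - 1) * ∏ j, ((A j).card : ℝ) ^ m j) *
        (∫ t in (2:ℝ)..N, 1 / Real.log t ^ (∏ j, m j)) ≤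
        ∑ x ∈ IX m A Lf, (PN (FT m Lf x) N : ℝ) := by
  obtain ⟨k, hk⟩ : ∃ k, ∏ j, m j = k + 1 :=
    ⟨∏ j, m j - 1, by
      have : 0 < ∏ j, m j := prod_pos (fun j _ => lt_of_lt_of_le Nat.zero_lt_one (hm j))
      omega⟩
  rw [hk] at hθ ⊢
  rw [Nat.add_sub_cancel]
  obtain ⟨θ', h1, h2⟩ := exists_between hθ
  have hFL0 : 0 < FL (k + 1) lam := hθ0.trans hθ
  have h3 := (FG_tendsto k hlam).eventually (lt_mem_nhds h2)
  have h3' := (FP_tendsto k hlam).eventually (lt_mem_nhds hFL0)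
  obtain ⟨r, hr, h4⟩ := Metric.eventually_nhds_iff.1 (h3.and h3')
  obtain ⟨δ, hδdef⟩ : ∃ δ, δ = min (r / 2) (1 / 4) := ⟨_, rfl⟩
  have hδ : 0 < δ := by rw [hδdef]; exact lt_min (by positivity) (by norm_num)
  have hδ1 : δ ≤ 1 / 4 := by rw [hδdef]; exact min_le_right _ _
  have hδr : δ < r := by rw [hδdef]; exact lt_of_le_of_lt (min_le_left _ _) (by linarith)
  obtain ⟨h5, h5'⟩ := h4 (show dist δ 0 < r by
    rw [Real.dist_eq, sub_zero, abs_of_pos hδ]; exact hδr)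
  have hη : 0 < (θ' - θ) / θ := div_pos (by linarith) hθ0
  filter_upwards [Pr_eventually k c q hδ (by linarith), Uni.li_upper (k + 1) hη] with N hN hli
  intro α A Lf hLf hV hcard
  obtain ⟨z, hP⟩ := hN
  have hL : 0 < Real.log N := by linarith [hP.hL]
  have k1 := fin_bound_a m hm hk A Lf hLf hP hδ hδ1 hq hV hlam hcard h5'.le
  have k2 := fin_bound_b m hm hk A Lf hLf hP hδ hδ1 hq hV hlam hcard h5'.le
  have hX : (0:ℝ) ≤ N / Real.log N ^ (k + 1) := by positivity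
  have key : ∀ S : ℝ, 0 ≤ S → θ * S * (∫ t in (2:ℝ)..N, 1 / Real.log t ^ (k + 1)) ≤
      FG k lam δ * (N / Real.log N ^ (k + 1)) * S := by
    intro S hS
    calc θ * S * (∫ t in (2:ℝ)..N, 1 / Real.log t ^ (k + 1))
        ≤ θ * S * ((1 + (θ' - θ) / θ) * (N / Real.log N ^ (k + 1))) :=
          mul_le_mul_of_nonneg_left hli (mul_nonneg hθ0.le hS)
      _ = θ' * (N / Real.log N ^ (k + 1)) * S := by
          field_simp
          ring
      _ ≤ FG k lam δ * (N / Real.log N ^ (k + 1)) * S := by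
          gcongr
  constructor
  · refine (key _ (sum_nonneg fun x hx => BH_nonneg (H := Real.log N ^ c) _ (FT_OK m hV hx))).trans ?_
    exact k1
  · have hS : 0 ≤ (1 / dn q (VA A Lf)) ^ k * ∏ j, ((A j).card : ℝ) ^ m j := by
      apply mul_nonneg _ (prod_nonneg fun j _ => pow_nonneg (Nat.cast_nonneg _) _)
      apply pow_nonneg
      unfold dn
      positivity
    exact (key _ hS).trans k2

end Pool.Agent.TH891.AL
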