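import Mathlib
import Pool.Agent.TH891.AL.L7

set_option autoImplicit false

/-! Translation to polynomials, helper891. -/

namespace Pool.Agent.TH891.AL

open Finset Filter Topology Polynomial Pool.Agent.H387R2 Pool.Agent.H362R2.R1

/-- the number of `n ≤ N` such that `|f(n)|` is prime for every `f ∈ F` -/
def primeCount (F : Finset ℤ[X]) (N : ℕ) : ℕ :=
  ((Icc 1 N).filter (fun n : ℕ => ∀ f ∈ F, (f.eval (n : ℤ)).natAbs.Prime)).card

open Classical in
/-- the proportion of the residues `r` modulo `q` such that `f(r)` is coprime to `q` for some `f ∈ V` -/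
noncomputable def dens (q : ℕ) (V : Finset ℤ[X]) : ℝ :=
  (((range q).filter (fun r : ℕ => ∃ f ∈ V, IsCoprime (f.eval (r : ℤ)) (q : ℤ))).card : ℝ) / q

/-- linear, irreducible, positive leading coefficient, coefficients at most `H` in absolute value -/
def LinH (H : ℝ) (f : ℤ[X]) : Prop :=
  (f.natDegree = 1 ∧ 0 < f.leadingCoeff ∧ Irreducible f) ∧ ∀ i, |((f.coeff i : ℤ) : ℝ)| ≤ H

lemma LinH.lin {H : ℝ} {f : ℤ[X]} (h : LinH H f) : Lin f := h.1

lemma LinH.ok {H : ℝ} {f : ℤ[X]} (h : LinH H f) : OK H (phi f) :=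
  ⟨h.lin.pos, h.lin.cop, h.2 1, h.2 0⟩

lemma LinH.mono {H H' : ℝ} (hH : H ≤ H') {f : ℤ[X]} (h : LinH H f) : LinH H' f :=
  ⟨h.1, fun i => (h.2 i).trans hH⟩

open Classical in
lemma PN_phi (F : Finset ℤ[X]) (hF : ∀ f ∈ F, Lin f) (N : ℕ) : PN (F.image phi) N = primeCount F N := by
  unfold PN primeCount
  congr 1
  apply filter_congr
  intro n _
  constructor
  · intro h f hf
    rw [(hF f hf).eval]
    exact h _ (mem_image_of_mem _ hf)
  · intro h g hg
    obtain ⟨f, hf, rfl⟩ := Finset.mem_image.1 hg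
    rw [← (hF f hf).eval]
    exact h f hf

open Classical in
lemma dn_phi (q : ℕ) (V : Finset ℤ[X]) (hV : ∀ f ∈ V, Lin f) : dn q (V.image phi) = dens q V := by
  unfold dn dens Gq
  congr 2
  congr 1
  apply filter_congr
  intro r _
  constructor
  · rintro ⟨g, hg, hc⟩
    obtain ⟨f, hf, rfl⟩ := Finset.mem_image.1 hg
    exact ⟨f, hf, by rw [(hV f hf).eval]; exact hc⟩
  · rintro ⟨f, hf, hc⟩
    exact ⟨phi f, mem_image_of_mem _ hf, by rw [← (hV f hf).eval]; exact hc⟩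

lemma pow_real {C : ℝ} {N : ℕ} (h : 1 ≤ Real.log N) : Real.log N ^ C ≤ Real.log N ^ ⌈C⌉₊ := by
  rw [← Real.rpow_natCast]
  exact Real.rpow_le_rpow_of_exponent_le h (Nat.le_ceil C)

theorem poly_universal (k q : ℕ) (lam θ C : ℝ) (hq : 1 ≤ q) (hlam : (k : ℝ) < lam)
    (hθ0 : 0 < θ) (hθ : θ < ∏ i ∈ range k, (1 - (i + 1 : ℝ) / lam)) :
    ∃ N₀ : ℕ, ∀ N : ℕ, N₀ ≤ N → ∀ V : Finset ℤ[X], (∀ f ∈ V, LinH (Real.log N ^ C) f) →
      lam * dens q V * Real.log N ≤ V.card →
      θ * (∑ F ∈ V.powersetCard (k + 1), CF F) * (∫ t in (2:ℝ)..N, 1 / Real.log t ^ (k + 1)) ≤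
        ∑ F ∈ V.powersetCard (k + 1), (primeCount F N : ℝ) := by
  classical
  have tL : Tendsto (fun N : ℕ => Real.log (N : ℝ)) atTop atTop :=
    Real.tendsto_log_atTop.comp tendsto_natCast_atTop_atTop
  rw [← eventually_atTop]
  filter_upwards [universal k ⌈C⌉₊ q hq hlam hθ0 hθ, tL.eventually_ge_atTop 1] with N h h1
  intro V hV hcard
  have hlin : ∀ f ∈ V, Lin f := fun f hf => (hV f hf).lin
  have h2 := h (V.image phi) (by
    intro g hg
    obtain ⟨f, hf, rfl⟩ := Finset.mem_image.1 hg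
    exact ((hV f hf).mono (pow_real h1)).ok) (by
    rw [dn_phi q V hlin, card_phi V hlin]
    exact hcard)
  have e1 := sum_phi V hlin (k + 1) (fun F => CF F) (fun T => BH T) (fun _ => True) (fun _ => True)
    (fun F hF => CF_eq F fun f hf => hlin f (hF hf)) (fun _ _ => Iff.rfl)
  have e2 := sum_phi V hlin (k + 1) (fun F => (primeCount F N : ℝ)) (fun T => (PN T N : ℝ)) (fun _ => True)
    (fun _ => True) (fun F hF => by rw [PN_phi F fun f hf => hlin f (hF hf)]) (fun _ _ => Iff.rfl)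
  simp only [filter_true] at e1 e2
  rw [e1, e2]
  exact h2

section grid

variable {J : Type} [Fintype J] {α : J → Type}

/-- the system attached to the box `x` -/
noncomputable def sys [DecidableEq J] (m : J → ℕ) (f : (∀ j, α j) → ℤ[X]) (x : ∀ j, Fin (m j) → α j) : Finset ℤ[X] := by
  classical
  exact univ.image (fun i : (∀ j, Fin (m j)) => f (fun j => x j (i j)))

/-- the boxes with sides in the sets `A j` and with distinct polynomials -/
noncomputable def boxes [DecidableEq J] (m : J → ℕ) (A : ∀ j, Finset (α j)) (f : (∀ j, α j) → ℤ[X]) :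
    Finset (∀ j, Fin (m j) → α j) := by
  classical
  exact (Fintype.piFinset fun j => Fintype.piFinset fun _ : Fin (m j) => A j).filter
    (fun x => Function.Injective (fun i : (∀ j, Fin (m j)) => f (fun j => x j (i j))))

/-- the polynomials of the array -/
noncomputable def entries [DecidableEq J] (A : ∀ j, Finset (α j)) (f : (∀ j, α j) → ℤ[X]) : Finset ℤ[X] := by
  classical
  exact (Fintype.piFinset A).image f

variable [DecidableEq J]

lemma mem_entries {A : ∀ j, Finset (α j)} {f : (∀ j, α j) → ℤ[X]} {g : ℤ[X]} :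
    g ∈ entries A f ↔ ∃ a, (∀ j, a j ∈ A j) ∧ f a = g := by
  classical
  unfold entries
  rw [Finset.mem_image]
  simp only [Fintype.mem_piFinset]

lemma VA_eq (A : ∀ j, Finset (α j)) (f : (∀ j, α j) → ℤ[X]) :
    VA A (fun a => phi (f a)) = by classical exact (entries A f).image phi := by
  classical
  unfold VA entries
  ext g
  simp only [Finset.mem_image]
  constructor
  · rintro ⟨a, ha, rfl⟩
    exact ⟨f a, ⟨a, ha, rfl⟩, rfl⟩
  · rintro ⟨_, ⟨a, ha, rfl⟩, rfl⟩
    exact ⟨a, ha, rfl⟩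

lemma FT_eq (m : J → ℕ) (f : (∀ j, α j) → ℤ[X]) (x : ∀ j, Fin (m j) → α j) :
    FT m (fun a => phi (f a)) x = by classical exact (sys m f x).image phi := by
  classical
  unfold FT sys ent
  ext g
  simp only [Finset.mem_image, mem_univ, true_and]
  constructor
  · rintro ⟨i, rfl⟩
    exact ⟨_, ⟨i, rfl⟩, rfl⟩
  · rintro ⟨_, ⟨i, rfl⟩, rfl⟩
    exact ⟨i, rfl⟩

lemma IX_eq (m : J → ℕ) (A : ∀ j, Finset (α j)) (f : (∀ j, α j) → ℤ[X])
    (hf : ∀ a, (∀ j, a j ∈ A j) → Lin (f a)) : IX m A (fun a => phi (f a)) = boxes m A f := by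
  classical
  unfold IX boxes
  ext x
  rw [mem_filter, mem_filter]
  have e : x ∈ BX m A ↔ x ∈ (Fintype.piFinset fun j => Fintype.piFinset fun _ : Fin (m j) => A j) := Iff.rfl
  rw [← e]
  apply and_congr_right
  intro hx
  have hl : ∀ i : (∀ j, Fin (m j)), Lin (f (fun j => x j (i j))) := fun i => hf _ fun j => mem_BX.1 hx j (i j)
  constructor
  · intro h i i' hi
    exact h (congrArg phi hi)
  · intro h i i' hi
    exact h (phi_inj (hl i) (hl i') hi)

lemma sys_lin (m : J → ℕ) {A : ∀ j, Finset (α j)} {f : (∀ j, α j) → ℤ[X]}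
    (hf : ∀ a, (∀ j, a j ∈ A j) → Lin (f a)) {x : ∀ j, Fin (m j) → α j} (hx : x ∈ boxes m A f) :
    ∀ g ∈ sys m f x, Lin g := by
  classical
  unfold boxes at hx
  rw [mem_filter] at hx
  have hx' : x ∈ BX m A := hx.1
  intro g hg
  unfold sys at hg
  obtain ⟨i, _, rfl⟩ := Finset.mem_image.1 hg
  exact hf _ fun j => mem_BX.1 hx' j (i j)

theorem poly_arrays (m : J → ℕ) (hm : ∀ j, 1 ≤ m j) {lam : ℝ} (hlam : 0 < lam)
    {θ : ℝ} (hθ0 : 0 < θ) (hθ : θ < FL (∏ j, m j) lam) (C : ℝ) (q : ℕ) (hq : 1 ≤ q) :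
    ∃ N₀ : ℕ, ∀ N : ℕ, N₀ ≤ N → ∀ (α : J → Type) (A : ∀ j, Finset (α j)) (f : (∀ j, α j) → ℤ[X]),
      (∀ a, (∀ j, a j ∈ A j) → LinH (Real.log N ^ C) (f a)) →
      (∀ j, ∀ a a' : ∀ j, α j, (∀ i, a i ∈ A i) → (∀ i, a' i ∈ A i) → (∀ i, i ≠ j → a i = a' i) →
        f a = f a' → a = a') →
      (∀ j₀, lam * (dens q (entries A f) * Real.log N) ^ (∏ j : {j // j ≠ j₀}, m j) ≤ (A j₀).card) →
      θ * (∑ x ∈ boxes m A f, CF (sys m f x)) * (∫ t in (2:ℝ)..N, 1 / Real.log t ^ (∏ j, m j)) ≤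
        ∑ x ∈ boxes m A f, (primeCount (sys m f x) N : ℝ) ∧
      θ * ((1 / dens q (entries A f)) ^ ((∏ j, m j) - 1) * ∏ j, ((A j).card : ℝ) ^ m j) *
        (∫ t in (2:ℝ)..N, 1 / Real.log t ^ (∏ j, m j)) ≤
        ∑ x ∈ boxes m A f, (primeCount (sys m f x) N : ℝ) := by
  classical
  have tL : Tendsto (fun N : ℕ => Real.log (N : ℝ)) atTop atTop :=
    Real.tendsto_log_atTop.comp tendsto_natCast_atTop_atTop
  rw [← eventually_atTop]
  filter_upwards [arrays m hm hlam hθ0 hθ ⌈C⌉₊ q hq, tL.eventually_ge_atTop 1] with N h h1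
  intro α A f hf hinj hcard
  have hlin : ∀ a, (∀ j, a j ∈ A j) → Lin (f a) := fun a ha => (hf a ha).lin
  have hlinE : ∀ g ∈ entries A f, Lin g := by
    intro g hg
    obtain ⟨a, ha, rfl⟩ := mem_entries.1 hg
    exact hlin a ha
  have hdn : dn q (VA A (fun a => phi (f a))) = dens q (entries A f) := by
    rw [VA_eq, ← dn_phi q _ hlinE]
  have h2 := h α A (fun a => phi (f a)) (by
    intro j a a' ha ha' haa he
    exact hinj j a a' ha ha' haa (phi_inj (hlin a ha) (hlin a' ha') he)) (by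
    intro g hg
    rw [VA_eq] at hg
    obtain ⟨g', hg', rfl⟩ := Finset.mem_image.1 hg
    obtain ⟨a, ha, rfl⟩ := mem_entries.1 hg'
    exact ((hf a ha).mono (pow_real h1)).ok) (by
    rw [hdn]
    exact hcard)
  rw [hdn, IX_eq m A f hlin] at h2
  have e1 : ∑ x ∈ boxes m A f, BH (FT m (fun a => phi (f a)) x) = ∑ x ∈ boxes m A f, CF (sys m f x) := by
    apply sum_congr rfl
    intro x hx
    rw [FT_eq, CF_eq _ (sys_lin m hlin hx)]
  have e2 : ∑ x ∈ boxes m A f, (PN (FT m (fun a => phi (f a)) x) N : ℝ) =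
      ∑ x ∈ boxes m A f, (primeCount (sys m f x) N : ℝ) := by
    apply sum_congr rfl
    intro x hx
    rw [FT_eq, PN_phi _ (sys_lin m hlin hx)]
  rw [e1, e2] at h2
  exact h2

end grid

end Pool.Agent.TH891.AL
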